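import Pool.Agent.W753.CZ.Crouzeix

set_option autoImplicit false

open Polynomial Matrix

namespace Pool.Agent.N830.CrouzeixConst

universe u

variable {H : Type u} [NormedAddCommGroup H] [InnerProductSpace ℂ H]

/-- `sup {|p(μ)| : μ ∈ W(A)}`, where `W(A) = {<Ax,x> : ‖x‖ = 1}` is the numerical range
(`0` if there is no unit vector). -/
noncomputable def supW (A : H →L[ℂ] H) (p : ℂ[X]) : ℝ :=
  ⨆ x : Metric.sphere (0 : H) 1, ‖p.eval (inner ℂ (x : H) (A x))‖

/-- `‖p(A)‖ ≤ k sup_{W(A)} |p|` for all bounded operators `A` on complex Hilbert spaces and all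
complex polynomials `p`. -/
def OpBound (k : ℝ) : Prop :=
  ∀ (H : Type u) [NormedAddCommGroup H] [InnerProductSpace ℂ H] [CompleteSpace H]
    (A : H →L[ℂ] H) (p : ℂ[X]), ‖aeval A p‖ ≤ k * supW A p

/-- `sup {|p(μ)| : μ ∈ W(A)}` for an `n × n` matrix `A`, where
`W(A) = {x* A x : x ∈ ℂⁿ, x* x = 1}` (`0` if `n = 0`). -/
noncomputable def supWMat {n : ℕ} (A : Matrix (Fin n) (Fin n) ℂ) (p : ℂ[X]) : ℝ :=
  ⨆ x : {x : Fin n → ℂ // star x ⬝ᵥ x = 1}, ‖p.eval (star x.1 ⬝ᵥ A.mulVec x.1)‖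

open scoped Matrix.Norms.L2Operator in
/-- `‖p(A)‖ ≤ k sup_{W(A)} |p|` for all square complex matrices `A` and all complex
polynomials `p`; `‖·‖` is the operator norm for the Euclidean norm on `ℂⁿ`. -/
def MatBound (k : ℝ) : Prop :=
  ∀ (n : ℕ) (A : Matrix (Fin n) (Fin n) ℂ) (p : ℂ[X]), ‖aeval A p‖ ≤ k * supWMat A p

theorem bdd (A : H →L[ℂ] H) (p : ℂ[X]) :
    BddAbove (Set.range fun x : Metric.sphere (0 : H) 1 => ‖p.eval (inner ℂ (x : H) (A x))‖) := by
  have hc : IsCompact (Metric.closedBall (0 : ℂ) ‖A‖) := isCompact_closedBall _ _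
  obtain ⟨C, hC⟩ := (hc.image (f := fun z => ‖p.eval z‖) (by fun_prop)).bddAbove
  refine ⟨C, ?_⟩
  rintro _ ⟨x, rfl⟩
  apply hC
  refine ⟨inner ℂ (x : H) (A x), ?_, rfl⟩
  rw [mem_closedBall_zero_iff]
  have hx : ‖(x : H)‖ = 1 := by simpa using x.2
  calc ‖inner ℂ (x : H) (A x)‖ ≤ ‖(x : H)‖ * ‖A x‖ := norm_inner_le_norm _ _
    _ ≤ ‖(x : H)‖ * (‖A‖ * ‖(x : H)‖) := by gcongr; exact A.le_opNorm _
    _ = ‖A‖ := by rw [hx]; ring

theorem upper [CompleteSpace H] (A : H →L[ℂ] H) (p : ℂ[X]) :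
    ‖aeval A p‖ ≤ 2 * ⨆ x : Metric.sphere (0 : H) 1, ‖p.eval (inner ℂ (x : H) (A x))‖ := by
  rcases subsingleton_or_nontrivial H with h | h
  · have h0 : aeval A p = 0 := Subsingleton.elim _ _
    rw [h0, norm_zero]
    have : (0 : ℝ) ≤ ⨆ x : Metric.sphere (0 : H) 1, ‖p.eval (inner ℂ (x : H) (A x))‖ :=
      Real.iSup_nonneg fun _ => norm_nonneg _
    positivity
  · apply Pool.Agent.W753.CZ.crouzeix_bound
    rintro w ⟨x, hx, rfl⟩
    exact le_ciSup (bdd A p) (⟨x, by simpa using hx⟩ : Metric.sphere (0 : H) 1)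

/-- Lower bound: a rank one nilpotent operator on a space with two orthonormal vectors. -/
theorem lower (e f : H) (he : ‖e‖ = 1) (hf : ‖f‖ = 1) (hef : inner ℂ e f = 0) (k : ℝ)
    (hk : ∀ (A : H →L[ℂ] H) (p : ℂ[X]),
      ‖aeval A p‖ ≤ k * ⨆ x : Metric.sphere (0 : H) 1, ‖p.eval (inner ℂ (x : H) (A x))‖) :
    2 ≤ k := by
  set A : H →L[ℂ] H := (innerSL ℂ f).smulRight e with hA
  have h1 := hk A X
  rw [aeval_X] at h1
  have h2 : (1 : ℝ) ≤ ‖A‖ := by
    have h3 := A.le_opNorm f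
    have h4 : A f = e := by
      rw [hA]
      simp [inner_self_eq_norm_sq_to_K, hf]
    rw [h4, he, hf, mul_one] at h3
    exact h3
  have h5 : ⨆ x : Metric.sphere (0 : H) 1, ‖(X : ℂ[X]).eval (inner ℂ (x : H) (A x))‖ ≤ 1 / 2 := by
    have hne : Nonempty (Metric.sphere (0 : H) 1) := ⟨⟨e, by simpa using he⟩⟩
    apply ciSup_le
    intro x
    have hx : ‖(x : H)‖ = 1 := by simpa using x.2
    rw [eval_X]
    have h6 : inner ℂ (x : H) (A x) = inner ℂ f (x : H) * inner ℂ (x : H) e := by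
      rw [hA]
      simp [inner_smul_right]
    have hon : Orthonormal ℂ ![e, f] := by
      rw [orthonormal_iff_ite]
      have hfe : inner ℂ f e = 0 := by rw [← inner_conj_symm, hef, map_zero]
      intro i j
      fin_cases i <;> fin_cases j <;>
        simp [inner_self_eq_norm_sq_to_K, he, hf, hef, hfe]
    have h7 := hon.sum_inner_products_le (x : H) (s := Finset.univ)
    rw [Fin.sum_univ_two] at h7
    simp only [Matrix.cons_val_zero, Matrix.cons_val_one] at h7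
    rw [h6, norm_mul, norm_inner_symm (x : H) e]
    rw [hx] at h7
    nlinarith [sq_nonneg (‖inner ℂ e (x : H)‖ - ‖inner ℂ f (x : H)‖)]
  have h8 : (0 : ℝ) ≤ ⨆ x : Metric.sphere (0 : H) 1, ‖(X : ℂ[X]).eval (inner ℂ (x : H) (A x))‖ :=
    Real.iSup_nonneg fun _ => norm_nonneg _
  by_contra hk2
  push Not at hk2
  rcases le_or_gt k 0 with hk0 | hk0
  · have := mul_nonpos_of_nonpos_of_nonneg hk0 h8
    linarith
  · have := mul_le_mul_of_nonneg_left h5 hk0.le
    linarith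

theorem op_const : IsLeast {k : ℝ | OpBound.{u} k} 2 := by
  constructor
  · intro H _ _ _ A p
    exact upper A p
  · intro k hk
    set e : EuclideanSpace ℂ (ULift.{u} (Fin 2)) := EuclideanSpace.single ⟨0⟩ 1
    set f : EuclideanSpace ℂ (ULift.{u} (Fin 2)) := EuclideanSpace.single ⟨1⟩ 1
    refine lower e f ?_ ?_ ?_ k (fun A p => hk _ A p)
    · simp [e]
    · simp [f]
    · simp [e, f, EuclideanSpace.inner_single_left]

theorem mat_aeval (n : ℕ) (A : Matrix (Fin n) (Fin n) ℂ) (p : ℂ[X]) :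
    Matrix.toEuclideanCLM (n := Fin n) (𝕜 := ℂ) (aeval A p) =
      aeval (Matrix.toEuclideanCLM (n := Fin n) (𝕜 := ℂ) A) p :=
  (Polynomial.aeval_algHom_apply
    ((Matrix.toEuclideanCLM (n := Fin n) (𝕜 := ℂ)).toAlgEquiv.toAlgHom) A p).symm

theorem supWMat_eq {n : ℕ} (A : Matrix (Fin n) (Fin n) ℂ) (p : ℂ[X]) :
    supWMat A p = supW (Matrix.toEuclideanCLM (n := Fin n) (𝕜 := ℂ) A) p := by
  unfold supWMat supW
  have hno : ∀ v : EuclideanSpace ℂ (Fin n), ‖v‖ = 1 ↔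
      star (WithLp.ofLp v) ⬝ᵥ (WithLp.ofLp v) = 1 := by
    intro v
    have h1 : inner ℂ v v = star (WithLp.ofLp v) ⬝ᵥ (WithLp.ofLp v) := by
      rw [EuclideanSpace.inner_eq_star_dotProduct, dotProduct_comm]
    rw [← h1, inner_self_eq_norm_sq_to_K]
    constructor
    · intro h; rw [h]; simp
    · intro h
      have h2 : ‖v‖ ^ 2 = 1 := by
        have h3 : ((‖v‖ ^ 2 : ℝ) : ℂ) = ((1 : ℝ) : ℂ) := by
          rw [Complex.ofReal_one, ← h]; push_cast; rfl
        exact Complex.ofReal_injective h3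
      exact (pow_eq_one_iff_of_nonneg (norm_nonneg _) two_ne_zero).mp h2
  let e : Metric.sphere (0 : EuclideanSpace ℂ (Fin n)) 1 ≃
      {x : Fin n → ℂ // star x ⬝ᵥ x = 1} :=
    { toFun := fun x => ⟨WithLp.ofLp x.1, (hno x.1).mp (by simp)⟩
      invFun := fun x => ⟨WithLp.toLp 2 x.1, by
        rw [mem_sphere_zero_iff_norm]; exact (hno _).mpr x.2⟩
      left_inv := fun x => rfl
      right_inv := fun x => rfl }
  rw [← e.iSup_comp]
  congr 1
  funext x
  have h2 : inner ℂ (x : EuclideanSpace ℂ (Fin n))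
      (Matrix.toEuclideanCLM (n := Fin n) (𝕜 := ℂ) A x) =
      star (WithLp.ofLp x.1) ⬝ᵥ A.mulVec (WithLp.ofLp x.1) := by
    rw [EuclideanSpace.inner_eq_star_dotProduct, dotProduct_comm]
    rfl
  rw [h2]
  rfl

open scoped Matrix.Norms.L2Operator in
theorem mat_const : IsLeast {k : ℝ | MatBound k} 2 := by
  constructor
  · intro n A p
    rw [supWMat_eq, ← Matrix.l2_opNorm_toEuclideanCLM, mat_aeval]
    exact upper _ p
  · intro k hk
    set e : EuclideanSpace ℂ (Fin 2) := EuclideanSpace.single 0 1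
    set f : EuclideanSpace ℂ (Fin 2) := EuclideanSpace.single 1 1
    refine lower e f ?_ ?_ ?_ k (fun A p => ?_)
    · simp [e]
    · simp [f]
    · simp [e, f, EuclideanSpace.inner_single_left]
    · have h := hk 2 ((Matrix.toEuclideanCLM (n := Fin 2) (𝕜 := ℂ)).symm A) p
      rw [supWMat_eq, ← Matrix.l2_opNorm_toEuclideanCLM, mat_aeval,
        StarAlgEquiv.apply_symm_apply] at h
      exact h

end Pool.Agent.N830.CrouzeixConst
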