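import Pool.Agent.H520R3.MG4

set_option autoImplicit false

open Set Filter Topology H520R3.MG

namespace Pool.Agent.N830.DecMarkov

theorem op_summable (c : ℕ → E) (C : ℝ) (hc : ∀ k, ‖c k‖ ≤ C) (x : E) :
    Summable fun k => x k • c k := by
  refine Summable.of_norm_bounded ((summ x).mul_right C) fun k => ?_
  rw [norm_smul, Real.norm_eq_abs]
  exact mul_le_mul_of_nonneg_left (hc k) (abs_nonneg _)

/-- the operator with prescribed bounded columns -/
noncomputable def op (c : ℕ → E) (C : ℝ) (hc : ∀ k, ‖c k‖ ≤ C) : E →L[ℝ] E :=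
  LinearMap.mkContinuous
    { toFun := fun x => ∑' k, x k • c k
      map_add' := fun x y => by
        rw [← (op_summable c C hc x).tsum_add (op_summable c C hc y)]
        refine tsum_congr fun n => ?_
        rw [lp.coeFn_add, Pi.add_apply, add_smul]
      map_smul' := fun a x => by
        rw [RingHom.id_apply, ← (op_summable c C hc x).tsum_const_smul]
        refine tsum_congr fun n => ?_
        rw [lp.coeFn_smul, Pi.smul_apply, smul_assoc] } C (fun x => by
      have h2 : HasSum (fun n => C * |x n|) (C * ‖x‖) := by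
        rw [norm_eq]
        exact (summ x).hasSum.mul_left C
      refine (op_summable c C hc x).hasSum.norm_le_of_bounded h2 fun k => ?_
      rw [norm_smul, Real.norm_eq_abs, mul_comm]
      exact mul_le_mul_of_nonneg_right (hc k) (abs_nonneg _))

theorem op_apply (c : ℕ → E) (C : ℝ) (hc : ∀ k, ‖c k‖ ≤ C) (x : E) :
    op c C hc x = ∑' k, x k • c k := rfl

theorem op_e (c : ℕ → E) (C : ℝ) (hc : ∀ k, ‖c k‖ ≤ C) (k : ℕ) : op c C hc (e k) = c k := by
  rw [op_apply, tsum_eq_single k]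
  · rw [e_self, one_smul]
  · intro j hj
    rw [e_ne hj, zero_smul]

theorem ext_e {A B : E →L[ℝ] E} (h : ∀ k, A (e k) = B (e k)) : A = B := by
  ext1 x
  have h1 := (hasSum_e x).mapL A
  have h2 := (hasSum_e x).mapL B
  have : (fun k => A (x k • e k)) = fun k => B (x k • e k) := by
    funext k
    rw [map_smul, map_smul, h]
  rw [this] at h1
  exact h1.unique h2

variable {d : ℕ → ℕ} (g : (Σ n, Fin (d n)) ≃ ℕ)

/-- a column of the block diagonal matrix -/
noncomputable def col (R : ∀ n, Matrix (Fin (d n)) (Fin (d n)) ℝ) (s : Σ n, Fin (d n)) : E :=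
  ∑ i : Fin (d s.1), R s.1 i s.2 • e (g ⟨s.1, i⟩)

theorem col_norm_le (R : ∀ n, Matrix (Fin (d n)) (Fin (d n)) ℝ) (s : Σ n, Fin (d n)) :
    ‖col g R s‖ ≤ ∑ i : Fin (d s.1), |R s.1 i s.2| := by
  refine (norm_sum_le _ _).trans (le_of_eq ?_)
  refine Finset.sum_congr rfl fun i _ => ?_
  rw [norm_smul, norm_e, mul_one, Real.norm_eq_abs]

theorem col_apply (R : ∀ n, Matrix (Fin (d n)) (Fin (d n)) ℝ) (n : ℕ) (j i : Fin (d n)) :
    col g R ⟨n, j⟩ (g ⟨n, i⟩) = R n i j := by
  have h1 : col g R ⟨n, j⟩ (g ⟨n, i⟩) =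
      ∑ l : Fin (d n), (R n l j • e (g ⟨n, l⟩) : E) (g ⟨n, i⟩) := by
    rw [col, lp.coeFn_sum, Finset.sum_apply]
  rw [h1, Finset.sum_eq_single i]
  · rw [lp.coeFn_smul, Pi.smul_apply, e_self, smul_eq_mul, mul_one]
  · intro l _ hl
    rw [lp.coeFn_smul, Pi.smul_apply, e_ne, smul_zero]
    intro h
    apply hl
    have := g.injective h
    simp only [Sigma.mk.injEq, heq_eq_eq, true_and] at this
    exact this.symm
  · intro h
    exact absurd (Finset.mem_univ _) h

theorem le_col_norm (R : ∀ n, Matrix (Fin (d n)) (Fin (d n)) ℝ) (n : ℕ) (j : Fin (d n)) :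
    ∑ i : Fin (d n), |R n i j| ≤ ‖col g R ⟨n, j⟩‖ := by
  rw [norm_eq]
  have hinj : Function.Injective fun i : Fin (d n) => g ⟨n, i⟩ := by
    intro a b hab
    have := g.injective hab
    simpa using this
  have h1 := (summ (col g R ⟨n, j⟩)).sum_le_tsum
    (Finset.univ.image fun i : Fin (d n) => g ⟨n, i⟩) (fun _ _ => abs_nonneg _)
  rw [Finset.sum_image (fun a _ b _ h => hinj h)] at h1
  refine le_trans (le_of_eq ?_) h1
  refine Finset.sum_congr rfl fun i _ => ?_
  rw [col_apply]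

/-- the block diagonal operator -/
noncomputable def D (R : ∀ n, Matrix (Fin (d n)) (Fin (d n)) ℝ) (C : ℝ)
    (hR : ∀ n j, ∑ i : Fin (d n), |R n i j| ≤ C) : E →L[ℝ] E :=
  op (fun k => col g R (g.symm k)) C (fun k => (col_norm_le g R _).trans (hR _ _))

theorem D_e (R : ∀ n, Matrix (Fin (d n)) (Fin (d n)) ℝ) (C : ℝ)
    (hR : ∀ n j, ∑ i : Fin (d n), |R n i j| ≤ C) (s : Σ n, Fin (d n)) :
    D g R C hR (e (g s)) = col g R s := by
  rw [D, op_e, Equiv.symm_apply_apply]

theorem D_comp (R R' R'' : ∀ n, Matrix (Fin (d n)) (Fin (d n)) ℝ) (C C' C'' : ℝ)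
    (hR : ∀ n j, ∑ i : Fin (d n), |R n i j| ≤ C) (hR' : ∀ n j, ∑ i : Fin (d n), |R' n i j| ≤ C')
    (hR'' : ∀ n j, ∑ i : Fin (d n), |R'' n i j| ≤ C'') (h : ∀ n, R n * R' n = R'' n) :
    (D g R C hR).comp (D g R' C' hR') = D g R'' C'' hR'' := by
  apply ext_e
  intro k
  obtain ⟨⟨n, j⟩, rfl⟩ := g.surjective k
  rw [ContinuousLinearMap.comp_apply, D_e, D_e, col, map_sum]
  simp only [map_smul, D_e]
  rw [col]
  simp only [col, Finset.smul_sum, smul_smul]
  have hcm := Finset.sum_comm (s := Finset.univ) (t := Finset.univ)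
    (f := fun (x y : Fin (d n)) => (R' n x j * R n y x) • e (g ⟨n, y⟩))
  refine hcm.trans ?_
  refine Finset.sum_congr rfl fun l _ => ?_
  rw [← Finset.sum_smul]
  congr 1
  rw [← h n, Matrix.mul_apply]
  exact Finset.sum_congr rfl fun i _ => mul_comm _ _

theorem D_one (R : ∀ n, Matrix (Fin (d n)) (Fin (d n)) ℝ) (C : ℝ)
    (hR : ∀ n j, ∑ i : Fin (d n), |R n i j| ≤ C) (h : ∀ n, R n = 1) :
    D g R C hR = ContinuousLinearMap.id ℝ E := by
  apply ext_e
  intro k
  obtain ⟨⟨n, j⟩, rfl⟩ := g.surjective k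
  rw [D_e, col, ContinuousLinearMap.id_apply]
  simp only
  rw [h n, Finset.sum_eq_single j]
  · rw [Matrix.one_apply_eq, one_smul]
  · intro l _ hl
    rw [Matrix.one_apply_ne hl, zero_smul]
  · intro h
    exact absurd (Finset.mem_univ _) h

/-- the functional sum of coordinates -/
noncomputable def tot : E →L[ℝ] ℝ := pairL 1

theorem tot_apply (x : E) : tot x = ∑' n, x n := by
  rw [tot, pairL_apply]
  refine tsum_congr fun n => ?_
  rw [BoundedContinuousFunction.coe_one, Pi.one_apply, mul_one]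

theorem tot_e (k : ℕ) : tot (e k) = 1 := by
  rw [tot, pairL_e]; rfl

theorem norm_of_nonneg {x : E} (hx : ∀ n, 0 ≤ x n) : ‖x‖ = tot x := by
  rw [norm_eq, tot_apply]
  exact tsum_congr fun n => abs_of_nonneg (hx n)

theorem D_nonneg (R : ∀ n, Matrix (Fin (d n)) (Fin (d n)) ℝ) (C : ℝ)
    (hR : ∀ n j, ∑ i : Fin (d n), |R n i j| ≤ C) (h : ∀ n i j, 0 ≤ R n i j)
    (x : E) (hx : ∀ n, 0 ≤ x n) (m : ℕ) : 0 ≤ (D g R C hR x) m := by
  have h1 : HasSum (fun k => x k • col g R (g.symm k)) (D g R C hR x) :=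
    (op_summable _ C (fun k => (col_norm_le g R _).trans (hR _ _)) x).hasSum
  have h2 := h1.mapL (lp.evalCLM ℝ (fun _ : ℕ => ℝ) 1 m)
  refine h2.nonneg fun k => ?_
  rw [map_smul, smul_eq_mul]
  refine mul_nonneg (hx k) ?_
  change 0 ≤ (col g R (g.symm k)) m
  rw [col, lp.coeFn_sum, Finset.sum_apply]
  refine Finset.sum_nonneg fun i _ => ?_
  rw [lp.coeFn_smul, Pi.smul_apply, smul_eq_mul]
  exact mul_nonneg (h _ _ _) (e_nonneg _ _)

theorem D_norm (R : ∀ n, Matrix (Fin (d n)) (Fin (d n)) ℝ) (C : ℝ)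
    (hR : ∀ n j, ∑ i : Fin (d n), |R n i j| ≤ C) (h : ∀ n i j, 0 ≤ R n i j)
    (h1 : ∀ n j, ∑ i : Fin (d n), R n i j = 1)
    (x : E) (hx : ∀ n, 0 ≤ x n) : ‖D g R C hR x‖ = ‖x‖ := by
  rw [norm_of_nonneg (D_nonneg g R C hR h x hx), norm_of_nonneg hx]
  have h2 := (hasSum_e x).mapL (tot.comp (D g R C hR))
  have h3 := (hasSum_e x).mapL tot
  have : (fun k => (tot.comp (D g R C hR)) (x k • e k)) = fun k => tot (x k • e k) := by
    funext k
    rw [map_smul, map_smul, ContinuousLinearMap.comp_apply]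
    congr 1
    obtain ⟨⟨n, j⟩, rfl⟩ := g.surjective k
    rw [D_e, tot_e, col, map_sum]
    simp only [map_smul, tot_e, smul_eq_mul, mul_one]
    exact h1 n j
  rw [this] at h2
  exact h2.unique h3

/-- continuity in a parameter -/
theorem D_cont {X : Type*} [TopologicalSpace X]
    (R : X → ∀ n, Matrix (Fin (d n)) (Fin (d n)) ℝ) (C : ℝ)
    (hR : ∀ t n j, ∑ i : Fin (d n), |R t n i j| ≤ C)
    (hc : ∀ n i j, Continuous fun t => R t n i j) (x : E) :
    Continuous fun t => D g (R t) C (hR t) x := by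
  have h1 : (fun t => D g (R t) C (hR t) x) = fun t => ∑' k, x k • col g (R t) (g.symm k) := rfl
  rw [h1]
  refine continuous_tsum (u := fun k => |x k| * C) ?_ ((summ x).mul_right C) ?_
  · intro k
    have h2 : Continuous fun t : X => col g (R t) (g.symm k) := by
      unfold col
      refine continuous_finsetSum Finset.univ fun i _ => ?_
      exact (hc (g.symm k).1 i (g.symm k).2).smul
        (continuous_const (y := (e (g ⟨(g.symm k).1, i⟩) : E)))
    exact h2.const_smul (x k)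
  · intro k t
    rw [norm_smul, Real.norm_eq_abs]
    exact mul_le_mul_of_nonneg_left ((col_norm_le g _ _).trans (hR t _ _)) (abs_nonneg _)

open scoped Matrix.Norms.Operator in
/-- if the semigroup is within `1/2` of the identity up to time `t₀`, the generator is at most
`1/t₀`. -/
theorem gen_bound {n : ℕ} (P : Matrix (Fin n) (Fin n) ℝ) (t₀ : ℝ) (ht : 0 < t₀)
    (h : ∀ s ∈ Icc 0 t₀, ‖NormedSpace.exp (s • P) - 1‖ ≤ 1 / 2) : ‖P‖ ≤ 1 / t₀ := by
  have hd : ∀ s ∈ Icc 0 t₀, HasDerivWithinAt (fun s : ℝ => NormedSpace.exp (s • P) - s • P)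
      (NormedSpace.exp (s • P) * P - P) (Icc 0 t₀) s := by
    intro s _
    apply HasDerivAt.hasDerivWithinAt
    apply HasDerivAt.sub
    · exact hasDerivAt_exp_smul_const P s
    · simpa using (hasDerivAt_id s).smul_const P
  have hb : ∀ s ∈ Icc 0 t₀, ‖NormedSpace.exp (s • P) * P - P‖ ≤ 1 / 2 * ‖P‖ := by
    intro s hs
    have : NormedSpace.exp (s • P) * P - P = (NormedSpace.exp (s • P) - 1) * P := by
      rw [sub_mul, one_mul]
    rw [this]
    refine (norm_mul_le _ _).trans ?_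
    gcongr
    exact h s hs
  have h1 := Convex.norm_image_sub_le_of_norm_hasDerivWithin_le hd hb (convex_Icc 0 t₀)
    (left_mem_Icc.mpr ht.le) (right_mem_Icc.mpr ht.le)
  have h2 := h t₀ (right_mem_Icc.mpr ht.le)
  rw [zero_smul, NormedSpace.exp_zero, sub_zero, sub_zero, Real.norm_of_nonneg ht.le] at h1
  have h3 : ‖t₀ • P‖ ≤ ‖NormedSpace.exp (t₀ • P) - 1‖ + ‖NormedSpace.exp (t₀ • P) - t₀ • P - 1‖ := by
    have : t₀ • P = (NormedSpace.exp (t₀ • P) - 1) - (NormedSpace.exp (t₀ • P) - t₀ • P - 1) := by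
      abel
    conv_lhs => rw [this]
    exact norm_sub_le _ _
  rw [norm_smul, Real.norm_of_nonneg ht.le] at h3
  rw [le_div_iff₀ ht]
  nlinarith

open scoped Matrix.Norms.Operator in
theorem exp_cont {n : ℕ} (Q : Matrix (Fin n) (Fin n) ℝ) (i j : Fin n) :
    Continuous fun t : ℝ => NormedSpace.exp (t • Q) i j := by
  have h1 : Continuous fun t : ℝ => NormedSpace.exp (t • Q) :=
    NormedSpace.exp_continuous.comp (continuous_id.smul continuous_const)
  exact (continuous_apply j).comp ((continuous_apply i).comp h1)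

open scoped Matrix.Norms.Operator in
theorem exp_add' {n : ℕ} (Q : Matrix (Fin n) (Fin n) ℝ) (s t : ℝ) :
    NormedSpace.exp (s • Q) * NormedSpace.exp (t • Q) = NormedSpace.exp ((s + t) • Q) := by
  rw [add_smul, Matrix.exp_add_of_commute]
  exact ((Commute.refl Q).smul_left s).smul_right t

open scoped Matrix.Norms.Operator in
/-- column version of `gen_bound` -/
theorem gen_bound_col {n : ℕ} (Q : Matrix (Fin n) (Fin n) ℝ) (t₀ : ℝ) (ht : 0 < t₀)
    (h : ∀ s ∈ Icc 0 t₀, ∀ j, ∑ i, |(NormedSpace.exp (s • Q) - 1) i j| ≤ 1 / 2) (j : Fin n) :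
    ∑ i, |Q i j| ≤ 1 / t₀ := by
  have hn : ∀ (P : Matrix (Fin n) (Fin n) ℝ) (c : ℝ), 0 ≤ c →
      (∀ j, ∑ i, |P i j| ≤ c) → ‖P.transpose‖ ≤ c := by
    intro P c hc hP
    rw [Matrix.linfty_opNorm_def]
    have : (Finset.univ.sup fun i : Fin n => ∑ j : Fin n, ‖P.transpose i j‖₊) ≤ ⟨c, hc⟩ := by
      apply Finset.sup_le
      intro i _
      apply NNReal.coe_le_coe.mp
      push_cast
      have h0 := hP i
      change ∑ j, ‖P j i‖ ≤ c
      simpa using h0
    exact_mod_cast this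
  have hn' : ∀ (P : Matrix (Fin n) (Fin n) ℝ) (j), ∑ i, |P i j| ≤ ‖P.transpose‖ := by
    intro P j
    rw [Matrix.linfty_opNorm_def]
    have := Finset.le_sup (f := fun i : Fin n => ∑ j : Fin n, ‖P.transpose i j‖₊)
      (Finset.mem_univ j)
    rw [← NNReal.coe_le_coe] at this
    push_cast at this
    simpa using this
  refine (hn' Q j).trans (gen_bound Q.transpose t₀ ht fun s hs => ?_)
  have : NormedSpace.exp (s • Q.transpose) - 1 = (NormedSpace.exp (s • Q) - 1).transpose := by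
    rw [Matrix.transpose_sub, Matrix.transpose_one, ← Matrix.exp_transpose, Matrix.transpose_smul]
  rw [this]
  exact hn _ _ (by norm_num) (h s hs)

/-- **The decoupled Markov group conjecture.** -/
theorem decoupled (M : ℝ) (hM : 1 ≤ M) : ∃ C : ℝ, 0 ≤ C ∧
      ∀ d : ℕ, ∀ Q : Matrix (Fin d) (Fin d) ℝ,
        (∀ j : Fin d, ∑ i : Fin d, |NormedSpace.exp (-Q) i j| ≤ M) →
        (∀ t : ℝ, 0 ≤ t →
          (∀ i j : Fin d, 0 ≤ NormedSpace.exp (t • Q) i j) ∧
          (∀ j : Fin d, ∑ i : Fin d, NormedSpace.exp (t • Q) i j = 1)) →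
        ∀ j : Fin d, ∑ i : Fin d, |Q i j| ≤ C := by
  by_contra hcon
  push Not at hcon
  choose d Q hQM hQP j hj using fun n : ℕ => hcon n (Nat.cast_nonneg n)
  have hinf : Infinite (Σ n, Fin (d n)) :=
    Infinite.of_injective (fun n => (⟨n, j n⟩ : Σ n, Fin (d n))) (by
      intro a b hab
      exact congrArg Sigma.fst hab)
  obtain ⟨g⟩ : Nonempty ((Σ n, Fin (d n)) ≃ ℕ) := nonempty_equiv_of_countable
  set R : NNReal → ∀ n, Matrix (Fin (d n)) (Fin (d n)) ℝ :=
    fun t n => NormedSpace.exp ((t : ℝ) • Q n) with hR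
  have hRnn : ∀ t n i j, 0 ≤ R t n i j := fun t n i j => (hQP n t t.2).1 i j
  have hRs : ∀ t n j, ∑ i, R t n i j = 1 := fun t n j => (hQP n t t.2).2 j
  have hR1 : ∀ t n j, ∑ i, |R t n i j| ≤ 1 := by
    intro t n j
    rw [Finset.sum_congr rfl fun i _ => abs_of_nonneg (hRnn t n i j), hRs]
  set T : NNReal → (E →L[ℝ] E) := fun t => D g (R t) 1 (hR1 t) with hT
  have hT0 : T 0 = ContinuousLinearMap.id ℝ E := by
    apply D_one
    intro n
    rw [hR]
    simp only [NNReal.coe_zero, zero_smul, NormedSpace.exp_zero]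
  have hTadd : ∀ s t : NNReal, T (s + t) = (T s).comp (T t) := by
    intro s t
    symm
    apply D_comp
    intro n
    rw [hR]
    simp only [NNReal.coe_add]
    exact exp_add' _ _ _
  have hTc : ∀ x : E, Continuous fun t : NNReal => T t x := by
    intro x
    exact D_cont g R 1 hR1 (fun n i j => (exp_cont (Q n) i j).comp NNReal.continuous_coe) x
  have hTp : ∀ (t : NNReal) (x : E), (∀ n : ℕ, 0 ≤ x n) → ∀ n : ℕ, 0 ≤ (T t x) n :=
    fun t x hx n => D_nonneg g _ _ _ (hRnn t) x hx n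
  have hTn : ∀ (t : NNReal) (x : E), (∀ n : ℕ, 0 ≤ x n) → ‖T t x‖ = ‖x‖ :=
    fun t x hx => D_norm g _ _ _ (hRnn t) (hRs t) x hx
  set S : E →L[ℝ] E := D g (fun n => NormedSpace.exp (-Q n)) M hQM with hS
  have hST : S.comp (T 1) = ContinuousLinearMap.id ℝ E := by
    rw [hS, hT]
    simp only
    rw [D_comp g _ _ (fun n => 1) M 1 1 hQM (hR1 1) (fun n j => by
      rw [Finset.sum_eq_single j (fun i _ hi => by rw [Matrix.one_apply_ne hi, abs_zero])
        (fun h => absurd (Finset.mem_univ _) h), Matrix.one_apply_eq, abs_one]) (fun n => by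
      have := exp_add' (Q n) (-1) 1
      rw [neg_add_cancel, zero_smul, NormedSpace.exp_zero, neg_smul, one_smul] at this
      rw [hR]
      simpa using this)]
    exact D_one g _ _ _ fun n => rfl
  have hTS : (T 1).comp S = ContinuousLinearMap.id ℝ E := by
    rw [hS, hT]
    simp only
    rw [D_comp g _ _ (fun n => 1) 1 M 1 (hR1 1) hQM (fun n j => by
      rw [Finset.sum_eq_single j (fun i _ hi => by rw [Matrix.one_apply_ne hi, abs_zero])
        (fun h => absurd (Finset.mem_univ _) h), Matrix.one_apply_eq, abs_one]) (fun n => by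
      have := exp_add' (Q n) 1 (-1)
      rw [add_neg_cancel, zero_smul, NormedSpace.exp_zero, neg_smul, one_smul] at this
      rw [hR]
      simpa using this)]
    exact D_one g _ _ _ fun n => rfl
  have hbij : Function.Bijective (T 1) := by
    rw [Function.bijective_iff_has_inverse]
    exact ⟨S, fun x => congrArg (fun A : E →L[ℝ] E => A x) hST,
      fun x => congrArg (fun A : E →L[ℝ] E => A x) hTS⟩
  have hlim := H520R3.MG.main T hT0 hTadd hTc hTp hTn hbij
  rw [Metric.tendsto_nhds_nhds] at hlim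
  obtain ⟨δ, hδ, hδ'⟩ := hlim (1 / 2) (by norm_num)
  obtain ⟨n, hn⟩ := exists_nat_gt (1 / (δ / 2))
  have hgb := gen_bound_col (Q n) (δ / 2) (by positivity) (by
    intro s hs k
    obtain ⟨hs0, hs1⟩ := hs
    have h1 := hδ' (x := (⟨s, hs0⟩ : NNReal)) (by
      change |s - 0| < δ
      rw [sub_zero, abs_of_nonneg hs0]
      linarith)
    rw [dist_eq_norm] at h1
    have h2 := (T ⟨s, hs0⟩ - ContinuousLinearMap.id ℝ E).le_opNorm (e (g ⟨n, k⟩))
    rw [norm_e, mul_one] at h2
    have h3 : (T ⟨s, hs0⟩ - ContinuousLinearMap.id ℝ E) (e (g ⟨n, k⟩)) =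
        col g (fun m => NormedSpace.exp (s • Q m) - 1) ⟨n, k⟩ := by
      have h4 : (ContinuousLinearMap.id ℝ E) (e (g ⟨n, k⟩)) =
          col g (fun m => (1 : Matrix (Fin (d m)) (Fin (d m)) ℝ)) ⟨n, k⟩ := by
        rw [← D_one g (fun m => (1 : Matrix (Fin (d m)) (Fin (d m)) ℝ)) 1 (fun m l => by
          rw [Finset.sum_eq_single l (fun i _ hi => by rw [Matrix.one_apply_ne hi, abs_zero])
            (fun h => absurd (Finset.mem_univ _) h), Matrix.one_apply_eq, abs_one])
          (fun _ => rfl), D_e]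
      rw [_root_.sub_apply, h4, hT]
      simp only
      rw [D_e, col, col, col, ← Finset.sum_sub_distrib]
      refine Finset.sum_congr rfl fun i _ => ?_
      rw [Matrix.sub_apply, sub_smul]
      rfl
    rw [h3] at h2
    have h5 := le_col_norm g (fun m => NormedSpace.exp (s • Q m) - 1) n k
    linarith) (j n)
  linarith [hj n]

end Pool.Agent.N830.DecMarkov
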