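import Mathlib

set_option autoImplicit false

/-!
# Legendre multiplier sequences: algebraic identities
-/

open Polynomial Finset

namespace Pool.Agent.N830.Leg

/-- Legendre polynomials, by Rodrigues' formula -/
noncomputable def leg (n : ℕ) : ℝ[X] :=
  C (1 / (2 ^ n * (n.factorial : ℝ))) * derivative^[n] ((X ^ 2 - 1) ^ n)

/-- `∏_{i<j} (t - i (i+1))` -/
noncomputable def D (j : ℕ) (t : ℝ) : ℝ := ∏ i ∈ range j, (t - (i : ℝ) * (i + 1))

lemma D_zero (t : ℝ) : D 0 t = 1 := by simp [D]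

lemma D_succ (j : ℕ) (t : ℝ) : D (j + 1) t = D j t * (t - (j : ℝ) * (j + 1)) := by
  simp [D, prod_range_succ]

lemma D_nat_lt {j k : ℕ} (h : k < j) : D j ((k : ℝ) * (k + 1)) = 0 := by
  unfold D
  exact prod_eq_zero (mem_range.2 h) (by ring)

/-- `D j (k(k+1)) (k-j)! = (k+j)!` -/
lemma D_nat {j k : ℕ} (h : j ≤ k) :
    D j ((k : ℝ) * (k + 1)) * ((k - j).factorial : ℝ) = ((k + j).factorial : ℝ) := by
  induction j with
  | zero => simp [D_zero]
  | succ j ih =>
    have h1 := ih (Nat.le_of_succ_le h)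
    rw [D_succ]
    have h2 : k - j = (k - (j + 1)) + 1 := by omega
    rw [h2, Nat.factorial_succ] at h1
    have h3 : k + (j + 1) = (k + j) + 1 := by ring
    rw [h3, Nat.factorial_succ, Nat.cast_mul, ← h1]
    have h4 : ((k - (j + 1) + 1 : ℕ) : ℝ) = (k : ℝ) - j := by
      rw [← h2, Nat.cast_sub (Nat.le_of_succ_le h)]
    push_cast at h4 ⊢
    rw [h4]
    ring

/-- expansion of the Legendre polynomials at `1` -/
lemma leg_eq (k : ℕ) : leg k = ∑ j ∈ range (k + 1),
    C (D j ((k : ℝ) * (k + 1)) / ((j.factorial : ℝ) ^ 2)) * (C (1 / 2) * (X - C 1)) ^ j := by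
  have h1 : ((X ^ 2 - 1) ^ k : ℝ[X]) = ∑ m ∈ range (k + 1),
      ((2 ^ (k - m) * (k.choose m : ℝ)) • (X - C 1) ^ (k + m) : ℝ[X]) := by
    have h2 : (X ^ 2 - 1 : ℝ[X]) = (X - C 1) * ((X - C 1) + C 2) := by
      have : (C 2 : ℝ[X]) = C 1 + C 1 := by rw [← C_add]; norm_num
      rw [this, C_1]; ring
    rw [h2, mul_pow, add_pow, mul_sum]
    refine sum_congr rfl fun m hm => ?_
    rw [smul_eq_C_mul, C_mul, C_pow, pow_add, ← C_pow]
    have h3 : (C ((k.choose m : ℝ)) : ℝ[X]) = ((k.choose m : ℕ) : ℝ[X]) := by simp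
    rw [h3, C_pow]
    ring
  unfold leg
  rw [h1, iterate_derivative_sum, mul_sum]
  refine sum_congr rfl fun m hm => ?_
  have hm' : m ≤ k := Nat.lt_succ_iff.1 (mem_range.1 hm)
  rw [iterate_derivative_smul, iterate_derivative_X_sub_pow]
  have h4 : k + m - k = m := by omega
  rw [h4, mul_pow, ← C_pow, nsmul_eq_mul, smul_eq_C_mul]
  have h5 : (((k + m).descFactorial k : ℕ) : ℝ[X]) = C (((k + m).descFactorial k : ℕ) : ℝ) := by
    simp
  rw [h5, ← mul_assoc, ← mul_assoc, ← mul_assoc, ← C_mul, ← C_mul, ← C_mul]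
  congr 2
  have h6 : ((m.factorial : ℕ) : ℝ) * (((k + m).descFactorial k : ℕ) : ℝ) =
      ((k + m).factorial : ℝ) := by
    have := Nat.factorial_mul_descFactorial (n := k + m) (k := k) (by omega)
    rw [h4] at this
    exact_mod_cast this
  have h7 : ((k.choose m : ℕ) : ℝ) * (m.factorial : ℝ) * ((k - m).factorial : ℝ) =
      (k.factorial : ℝ) := by
    exact_mod_cast Nat.choose_mul_factorial_mul_factorial hm'
  have h8 := D_nat hm'
  have e1 : (m.factorial : ℝ) ≠ 0 := by positivity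
  have e2 : ((k - m).factorial : ℝ) ≠ 0 := by positivity
  have e3 : (k.factorial : ℝ) ≠ 0 := by positivity
  have e4 : (2 : ℝ) ^ (k - m) * 2 ^ m = 2 ^ k := by rw [← pow_add]; congr 1; omega
  have h9 : D m ((k : ℝ) * (k + 1)) = ((k + m).factorial : ℝ) / ((k - m).factorial : ℝ) := by
    rw [eq_div_iff e2]; exact h8
  have e5 : ((k.choose m : ℕ) : ℝ) ≠ 0 := by exact_mod_cast (Nat.choose_pos hm').ne'
  rw [h9, ← h6, ← h7, ← e4, one_div_pow]
  field_simp

/-- weighted sums -/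
noncomputable def W (w : ℕ → ℝ) (n j : ℕ) : ℝ :=
  ∑ k ∈ range (n + 1), w k * ((2 * n + 1).choose (n - k) : ℝ) * D j ((k : ℝ) * (k + 1))

lemma choose_rec {n k : ℕ} (hk : k ≤ n) :
    (((2 * (n + 1) + 1).choose (n + 1 - k) : ℕ) : ℝ) * (((n : ℝ) + 1 - k) * ((n : ℝ) + 1 + k + 1)) =
      (2 * ((n : ℝ) + 1)) * (2 * ((n : ℝ) + 1) + 1) * ((2 * n + 1).choose (n - k) : ℝ) := by
  have h1 : n + 1 - k = (n - k) + 1 := by omega
  have h2 : ((2 * n + 1 + 1) * (2 * n + 1).choose (n - k) : ℕ) =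
      (2 * n + 1 + 1).choose (n - k + 1) * (n - k + 1) :=
    Nat.add_one_mul_choose_eq (2 * n + 1) (n - k)
  have h3 : (2 * n + 2 + 1).choose (n - k + 1) * (2 * n + 2 + 1 - (n - k + 1)) =
      (2 * n + 2).choose (n - k + 1) * (2 * n + 3) := by
    have := Nat.choose_mul_succ_eq (2 * n + 2) (n - k + 1)
    rw [mul_comm ((2 * n + 2 + 1).choose (n - k + 1))]
    rw [mul_comm] at this
    linarith
  have h4 : 2 * n + 2 + 1 - (n - k + 1) = n + k + 2 := by omega
  rw [h4] at h3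
  have h5 : 2 * (n + 1) + 1 = 2 * n + 2 + 1 := by ring
  rw [h5, h1]
  have h2' : (2 * (n : ℝ) + 2) * ((2 * n + 1).choose (n - k) : ℝ) =
      ((2 * n + 2).choose (n - k + 1) : ℝ) * ((n : ℝ) - k + 1) := by
    have := congrArg (Nat.cast : ℕ → ℝ) h2
    push_cast [Nat.cast_sub hk] at this
    convert this using 2
    · ring
  have h3' : ((2 * n + 2 + 1).choose (n - k + 1) : ℝ) * ((n : ℝ) + k + 2) =
      ((2 * n + 2).choose (n - k + 1) : ℝ) * (2 * n + 3) := by
    exact_mod_cast congrArg (Nat.cast : ℕ → ℝ) h3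
  have e1 : (((2 * n + 2 + 1).choose (n - k + 1) : ℕ) : ℝ) * (((n : ℝ) + 1 - k) * ((n : ℝ) + 1 + k + 1)) =
      ((((2 * n + 2 + 1).choose (n - k + 1) : ℕ) : ℝ) * ((n : ℝ) + k + 2)) * ((n : ℝ) - k + 1) := by
    ring
  rw [e1, h3']
  have e2 : ((2 * n + 2).choose (n - k + 1) : ℝ) * (2 * n + 3) * ((n : ℝ) - k + 1) =
      (((2 * n + 2).choose (n - k + 1) : ℝ) * ((n : ℝ) - k + 1)) * (2 * n + 3) := by ring
  rw [e2, ← h2']
  ring

lemma W_rec (w : ℕ → ℝ) (n j : ℕ) :
    W w (n + 1) (j + 1) = ((n : ℝ) + 1 - j) * ((n : ℝ) + 1 + j + 1) * W w (n + 1) j -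
      (2 * ((n : ℝ) + 1)) * (2 * ((n : ℝ) + 1) + 1) * W w n j := by
  have key : ∀ k ∈ range (n + 1),
      w k * ((2 * (n + 1) + 1).choose (n + 1 - k) : ℝ) * D (j + 1) ((k : ℝ) * (k + 1)) =
      ((n : ℝ) + 1 - j) * ((n : ℝ) + 1 + j + 1) *
        (w k * ((2 * (n + 1) + 1).choose (n + 1 - k) : ℝ) * D j ((k : ℝ) * (k + 1))) -
      (2 * ((n : ℝ) + 1)) * (2 * ((n : ℝ) + 1) + 1) *
        (w k * ((2 * n + 1).choose (n - k) : ℝ) * D j ((k : ℝ) * (k + 1))) := by
    intro k hk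
    have hk' : k ≤ n := Nat.lt_succ_iff.1 (mem_range.1 hk)
    have h1 := choose_rec hk'
    rw [D_succ]
    have h2 : ((k : ℝ) * (k + 1) - (j : ℝ) * (j + 1)) =
      ((n : ℝ) + 1 - j) * ((n : ℝ) + 1 + j + 1) - ((n : ℝ) + 1 - k) * ((n : ℝ) + 1 + k + 1) := by
      ring
    rw [h2]
    linear_combination (-(w k * D j ((k : ℝ) * (k + 1)))) * h1
  have hlast : D (j + 1) (((n + 1 : ℕ) : ℝ) * (((n + 1 : ℕ) : ℝ) + 1)) =
      ((n : ℝ) + 1 - j) * ((n : ℝ) + 1 + j + 1) *
        D j (((n + 1 : ℕ) : ℝ) * (((n + 1 : ℕ) : ℝ) + 1)) := by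
    rw [D_succ]
    push_cast
    ring
  have e1 : W w (n + 1) (j + 1) = (∑ k ∈ range (n + 1),
      w k * ((2 * (n + 1) + 1).choose (n + 1 - k) : ℝ) * D (j + 1) ((k : ℝ) * (k + 1))) +
      w (n + 1) * ((2 * (n + 1) + 1).choose (n + 1 - (n + 1)) : ℝ) *
        D (j + 1) (((n + 1 : ℕ) : ℝ) * (((n + 1 : ℕ) : ℝ) + 1)) := by
    unfold W; rw [sum_range_succ _ (n + 1)]
  have e2 : W w (n + 1) j = (∑ k ∈ range (n + 1),
      w k * ((2 * (n + 1) + 1).choose (n + 1 - k) : ℝ) * D j ((k : ℝ) * (k + 1))) +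
      w (n + 1) * ((2 * (n + 1) + 1).choose (n + 1 - (n + 1)) : ℝ) *
        D j (((n + 1 : ℕ) : ℝ) * (((n + 1 : ℕ) : ℝ) + 1)) := by
    unfold W; rw [sum_range_succ _ (n + 1)]
  have e3 : W w n j = ∑ k ∈ range (n + 1),
      w k * ((2 * n + 1).choose (n - k) : ℝ) * D j ((k : ℝ) * (k + 1)) := rfl
  rw [e1, e2, e3, sum_congr rfl key, sum_sub_distrib, ← mul_sum, ← mul_sum, hlast]
  ring

lemma W_zero_succ (w : ℕ → ℝ) (j : ℕ) : W w 0 (j + 1) = 0 := by
  unfold W
  rw [sum_range_one, D_nat_lt (Nat.succ_pos j), mul_zero]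

/-- first closed form -/
lemma W_one (j n : ℕ) : W (fun k => 2 * (k : ℝ) + 1) n j =
    (2 * (n : ℝ) + 1) * ((2 * n).choose n : ℝ) * (j.factorial : ℝ) * (n.descFactorial j : ℝ) := by
  induction j generalizing n with
  | zero =>
    unfold W
    simp only [D_zero, mul_one, Nat.factorial_zero, Nat.cast_one, Nat.descFactorial_zero]
    -- telescoping
    have h1 : ∀ k ∈ range (n + 1), (2 * (k : ℝ) + 1) * ((2 * n + 1).choose (n - k) : ℝ) =
        (2 * (n : ℝ) + 1) * (((2 * n).choose (n + k) : ℝ) - ((2 * n).choose (n + (k + 1)) : ℝ)) := by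
      intro k hk
      have hk' : k ≤ n := Nat.lt_succ_iff.1 (mem_range.1 hk)
      have h2 : (2 * n).choose (n - k) = (2 * n).choose (n + k) := by
        rw [← Nat.choose_symm (show n + k ≤ 2 * n by omega)]; congr 1; omega
      have h3 : (2 * n + 1).choose (n - k) = (2 * n + 1).choose (n + k + 1) := by
        rw [← Nat.choose_symm (show n + k + 1 ≤ 2 * n + 1 by omega)]; congr 1; omega
      have h4 : (2 * n + 1) * (2 * n).choose (n + k) =
          (2 * n + 1).choose (n + k + 1) * (n + k + 1) := Nat.add_one_mul_choose_eq (2 * n) (n + k)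
      have h5 : (2 * n).choose (n + k + 1) * (2 * n + 1) =
          (2 * n + 1).choose (n + k + 1) * (2 * n + 1 - (n + k + 1)) :=
        Nat.choose_mul_succ_eq (2 * n) (n + k + 1)
      have h6 : 2 * n + 1 - (n + k + 1) = n - k := by omega
      rw [h6] at h5
      have h4' := congrArg (Nat.cast : ℕ → ℝ) h4
      have h5' := congrArg (Nat.cast : ℕ → ℝ) h5
      push_cast [Nat.cast_sub hk'] at h4' h5'
      rw [h3, ← add_assoc]
      linear_combination h5' - h4'
    rw [sum_congr rfl h1, ← mul_sum, sum_range_sub']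
    simp only [add_zero]
    have h7 : (2 * n).choose (n + (n + 1)) = 0 := Nat.choose_eq_zero_of_lt (by omega)
    rw [h7]
    simp
  | succ j ih =>
    cases n with
    | zero => rw [W_zero_succ]; simp
    | succ n =>
      rw [W_rec, ih, ih]
      have h1 : ((n + 1 : ℕ).descFactorial (j + 1) : ℝ) =
          ((n : ℝ) + 1) * (n.descFactorial j : ℝ) := by
        rw [Nat.succ_descFactorial_succ]; push_cast; ring
      have h2 : ((n : ℝ) + 1 - j) * ((n + 1 : ℕ).descFactorial j : ℝ) =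
          ((n : ℝ) + 1) * (n.descFactorial j : ℝ) := by
        rcases lt_or_ge (n + 1) j with h | h
        · rw [Nat.descFactorial_of_lt h, Nat.descFactorial_of_lt (by omega)]; simp
        · have h3 := Nat.descFactorial_succ (n + 1) j
          rw [← h1, h3]
          push_cast [Nat.cast_sub h]
          ring
      have h4 : ((n : ℝ) + 1) * ((2 * (n + 1)).choose (n + 1) : ℝ) =
          2 * (2 * (n : ℝ) + 1) * ((2 * n).choose n : ℝ) := by
        have := Nat.succ_mul_centralBinom_succ n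
        unfold Nat.centralBinom at this
        exact_mod_cast this
      rw [h1, Nat.factorial_succ]
      push_cast
      linear_combination (2 * ((n : ℝ) + 1) + 1) * (((2 * (n + 1)).choose (n + 1) : ℕ) : ℝ) *
        (j.factorial : ℝ) * ((n : ℝ) + 1 + j + 1) * h2 +
        (2 * ((n : ℝ) + 1) + 1) * (j.factorial : ℝ) * (n.descFactorial j : ℝ) * ((n : ℝ) + 1) * h4

/-- second closed form -/
lemma W_two (j n : ℕ) : W (fun k => (2 * (k : ℝ) + 1) * (2 * (k : ℝ) + 1)) n j =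
    (2 * (n : ℝ) + 1) * 4 ^ n * (n.descFactorial j : ℝ) * ∏ i ∈ range j, ((3 : ℝ) / 2 + i) := by
  have hhalf : ∀ n : ℕ, ∑ k ∈ range (n + 1), (((2 * n + 1).choose (n - k) : ℕ) : ℝ) = 4 ^ n := by
    intro n
    have h1 := Nat.sum_range_choose_halfway n
    rw [← sum_range_reflect] at h1
    have h2 := congrArg (Nat.cast : ℕ → ℝ) h1
    push_cast at h2
    rw [← h2]
  induction j generalizing n with
  | zero =>
    cases n with
    | zero => simp [W, D_zero]
    | succ n =>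
      unfold W
      simp only [D_zero, mul_one, Nat.descFactorial_zero, Nat.cast_one, range_zero, prod_empty]
      have h1 : ∀ k ∈ range (n + 1 + 1), (2 * (k : ℝ) + 1) * (2 * (k : ℝ) + 1) *
          ((2 * (n + 1) + 1).choose (n + 1 - k) : ℝ) =
          (2 * ((n : ℝ) + 1) + 1) ^ 2 * ((2 * (n + 1) + 1).choose (n + 1 - k) : ℝ) -
          4 * ((((2 * (n + 1) + 1).choose (n + 1 - k) : ℕ) : ℝ) *
            (((n : ℝ) + 1 - k) * ((n : ℝ) + 1 + k + 1))) := by
        intro k _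
        ring
      rw [sum_congr rfl h1, sum_sub_distrib, ← mul_sum, ← mul_sum, hhalf (n + 1),
        sum_range_succ _ (n + 1)]
      have h2 : ∑ k ∈ range (n + 1), ((((2 * (n + 1) + 1).choose (n + 1 - k) : ℕ) : ℝ) *
            (((n : ℝ) + 1 - k) * ((n : ℝ) + 1 + k + 1))) =
          (2 * ((n : ℝ) + 1)) * (2 * ((n : ℝ) + 1) + 1) * 4 ^ n := by
        rw [← hhalf n, mul_sum]
        refine sum_congr rfl fun k hk => ?_
        exact choose_rec (Nat.lt_succ_iff.1 (mem_range.1 hk))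
      rw [h2]
      push_cast
      ring
  | succ j ih =>
    cases n with
    | zero => rw [W_zero_succ]; simp
    | succ n =>
      rw [W_rec, ih, ih, prod_range_succ]
      have h1 : ((n + 1 : ℕ).descFactorial (j + 1) : ℝ) =
          ((n : ℝ) + 1) * (n.descFactorial j : ℝ) := by
        rw [Nat.succ_descFactorial_succ]; push_cast; ring
      have h2 : ((n : ℝ) + 1 - j) * ((n + 1 : ℕ).descFactorial j : ℝ) =
          ((n : ℝ) + 1) * (n.descFactorial j : ℝ) := by
        rcases lt_or_ge (n + 1) j with h | h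
        · rw [Nat.descFactorial_of_lt h, Nat.descFactorial_of_lt (by omega)]; simp
        · have h3 := Nat.descFactorial_succ (n + 1) j
          rw [← h1, h3]
          push_cast [Nat.cast_sub h]
          ring
      rw [h1]
      push_cast
      set P := ∏ i ∈ range j, ((3 : ℝ) / 2 + i)
      linear_combination ((2 * ((n : ℝ) + 1) + 1) * 4 ^ (n + 1) * ((n : ℝ) + 1 + j + 1) * P) * h2

end Pool.Agent.N830.Leg
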