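import Pool.Agent.N830.LegA
import Pool.Agent.Helper722.RR.Newton

set_option autoImplicit false

/-!
# Legendre multiplier sequences: moment functionals and their asymptotics
-/

open Polynomial Finset Filter Topology

namespace Pool.Agent.N830.Leg

noncomputable def Dp (j : ℕ) : ℝ[X] := ∏ i ∈ range j, (X ^ 2 + X - C ((i : ℝ) * (i + 1)))

lemma Dp_eval (j : ℕ) (x : ℝ) : (Dp j).eval x = D j (x * (x + 1)) := by
  unfold Dp D
  rw [eval_prod]
  refine prod_congr rfl fun i _ => ?_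
  simp only [eval_sub, eval_add, eval_pow, eval_X, eval_C]
  ring

lemma Dp_factor_natDegree (c : ℝ) : (X ^ 2 + X - C c : ℝ[X]).natDegree = 2 := by
  compute_degree!

lemma Dp_factor_monic (c : ℝ) : (X ^ 2 + X - C c : ℝ[X]).Monic := by
  unfold Monic leadingCoeff
  rw [Dp_factor_natDegree]
  simp [coeff_X]

lemma Dp_monic (j : ℕ) : (Dp j).Monic := by
  unfold Dp
  exact monic_prod_of_monic _ _ fun i _ => Dp_factor_monic _

lemma Dp_natDegree (j : ℕ) : (Dp j).natDegree = 2 * j := by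
  unfold Dp
  rw [natDegree_prod_of_monic _ _ fun i _ => Dp_factor_monic _]
  rw [sum_congr rfl fun i _ => Dp_factor_natDegree _]
  simp [mul_comm]

/-- `4^n / C(2n,n)` -/
noncomputable def cc (n : ℕ) : ℝ := 4 ^ n / ((2 * n).choose n : ℝ)

lemma choose_pos' (n : ℕ) : (0 : ℝ) < ((2 * n).choose n : ℝ) := by
  exact_mod_cast Nat.choose_pos (by omega)

lemma cc_pos (n : ℕ) : 0 < cc n := div_pos (by positivity) (choose_pos' n)

lemma cc_sq (n : ℕ) : (2 * (n : ℝ) + 1) * ((2 * n).choose n : ℝ) ^ 2 ≤ (4 ^ n) ^ 2 := by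
  induction n with
  | zero => simp
  | succ n ih =>
    have h4 : ((n : ℝ) + 1) * ((2 * (n + 1)).choose (n + 1) : ℝ) =
        2 * (2 * (n : ℝ) + 1) * ((2 * n).choose n : ℝ) := by
      have := Nat.succ_mul_centralBinom_succ n
      unfold Nat.centralBinom at this
      exact_mod_cast this
    have h5 : ((n : ℝ) + 1) ^ 2 * ((2 * (n + 1)).choose (n + 1) : ℝ) ^ 2 =
        4 * (2 * (n : ℝ) + 1) * ((2 * (n : ℝ) + 1) * ((2 * n).choose n : ℝ) ^ 2) := by
      rw [← mul_pow, h4]; ring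
    have h6 : (0 : ℝ) < ((n : ℝ) + 1) ^ 2 := by positivity
    have h7 : ((n : ℝ) + 1) ^ 2 * ((2 * ((n + 1 : ℕ) : ℝ) + 1) *
        ((2 * (n + 1)).choose (n + 1) : ℝ) ^ 2) ≤ ((n : ℝ) + 1) ^ 2 * (4 ^ (n + 1)) ^ 2 := by
      have e : ((n : ℝ) + 1) ^ 2 * ((2 * ((n + 1 : ℕ) : ℝ) + 1) *
        ((2 * (n + 1)).choose (n + 1) : ℝ) ^ 2) = (2 * ((n : ℝ) + 1) + 1) *
          (((n : ℝ) + 1) ^ 2 * ((2 * (n + 1)).choose (n + 1) : ℝ) ^ 2) := by
        push_cast; ring
      rw [e, h5]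
      have h8 : (2 * ((n : ℝ) + 1) + 1) * (4 * (2 * (n : ℝ) + 1) *
          ((2 * (n : ℝ) + 1) * ((2 * n).choose n : ℝ) ^ 2)) ≤
          (2 * ((n : ℝ) + 1) + 1) * (4 * (2 * (n : ℝ) + 1) * (4 ^ n) ^ 2) := by
        gcongr
      refine h8.trans ?_
      have h9 : (4 ^ (n + 1)) ^ 2 = (16 : ℝ) * (4 ^ n) ^ 2 := by ring
      rw [h9]
      have h10 : (0 : ℝ) ≤ (4 ^ n) ^ 2 := by positivity
      nlinarith [h10]
    exact le_of_mul_le_mul_left h7 h6

lemma cc_ge (n : ℕ) : Real.sqrt (n : ℝ) ≤ cc n := by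
  have h := cc_sq n
  have hp := choose_pos' n
  refine Real.sqrt_le_iff.2 ⟨(cc_pos n).le, ?_⟩
  unfold cc
  rw [div_pow, le_div_iff₀ (by positivity)]
  refine le_trans ?_ h
  have : (n : ℝ) ≤ 2 * (n : ℝ) + 1 := by
    have : (0 : ℝ) ≤ n := Nat.cast_nonneg n
    linarith
  gcongr

lemma cc_tendsto : Tendsto cc atTop atTop :=
  tendsto_atTop_mono cc_ge (Real.tendsto_sqrt_atTop.comp tendsto_natCast_atTop_atTop)

/-- the moment functional -/
noncomputable def M (q : ℝ[X]) (n : ℕ) : ℝ :=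
  (∑ k ∈ range (n + 1), q.eval (k : ℝ) * ((2 * (k : ℝ) + 1) * ((2 * n + 1).choose (n - k) : ℝ))) /
    ((2 * (n : ℝ) + 1) * ((2 * n).choose n : ℝ))

lemma M_add (p q : ℝ[X]) (n : ℕ) : M (p + q) n = M p n + M q n := by
  unfold M
  rw [← add_div, ← sum_add_distrib]
  congr 1
  refine sum_congr rfl fun k _ => ?_
  rw [eval_add]; ring

lemma M_C_mul (c : ℝ) (q : ℝ[X]) (n : ℕ) : M (C c * q) n = c * M q n := by
  unfold M
  rw [mul_div_assoc', mul_sum]
  congr 1
  refine sum_congr rfl fun k _ => ?_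
  rw [eval_mul, eval_C]; ring

lemma M_Dp (j n : ℕ) : M (Dp j) n = (j.factorial : ℝ) * (n.descFactorial j : ℝ) := by
  have hp := choose_pos' n
  have h := W_one j n
  unfold W at h
  unfold M
  rw [div_eq_iff (by positivity)]
  have e : (j.factorial : ℝ) * (n.descFactorial j : ℝ) *
    ((2 * (n : ℝ) + 1) * ((2 * n).choose n : ℝ)) =
    (2 * (n : ℝ) + 1) * ((2 * n).choose n : ℝ) * (j.factorial : ℝ) * (n.descFactorial j : ℝ) := by
    ring
  rw [e, ← h]
  refine sum_congr rfl fun k _ => ?_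
  rw [Dp_eval]; ring

lemma M_two_Dp (j n : ℕ) : M ((C 2 * X + 1) * Dp j) n =
    cc n * (n.descFactorial j : ℝ) * ∏ i ∈ range j, ((3 : ℝ) / 2 + i) := by
  have hp := choose_pos' n
  have h := W_two j n
  unfold W at h
  unfold M cc
  rw [div_eq_iff (by positivity)]
  have e : 4 ^ n / ((2 * n).choose n : ℝ) * (n.descFactorial j : ℝ) *
      (∏ i ∈ range j, ((3 : ℝ) / 2 + i)) *
    ((2 * (n : ℝ) + 1) * ((2 * n).choose n : ℝ)) =
    (2 * (n : ℝ) + 1) * 4 ^ n * (n.descFactorial j : ℝ) * ∏ i ∈ range j, ((3 : ℝ) / 2 + i) := by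
    field_simp
  rw [e, ← h]
  refine sum_congr rfl fun k _ => ?_
  rw [eval_mul, Dp_eval]
  simp only [eval_add, eval_mul, eval_C, eval_X, eval_one]
  ring

lemma desc_tendsto {i e : ℕ} (h : i ≤ e) :
    Tendsto (fun n : ℕ => (n.descFactorial i : ℝ) / (n : ℝ) ^ e) atTop
      (𝓝 (if i = e then 1 else 0)) := by
  have h1 : Tendsto (fun n : ℕ => (n.descFactorial i : ℝ) / (n : ℝ) ^ i) atTop (𝓝 1) := by
    refine (Asymptotics.isEquivalent_iff_tendsto_one ?_).1 (isEquivalent_descFactorial i)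
    filter_upwards [eventually_gt_atTop 0] with n hn
    positivity
  split_ifs with he
  · subst he; exact h1
  · have hlt : i < e := lt_of_le_of_ne h he
    have h2 : Tendsto (fun n : ℕ => (1 : ℝ) / (n : ℝ) ^ (e - i)) atTop (𝓝 0) := by
      have h3 : Tendsto (fun n : ℕ => (n : ℝ) ^ (e - i)) atTop atTop :=
        (tendsto_pow_atTop (by omega)).comp tendsto_natCast_atTop_atTop
      simpa using h3.const_div_atTop 1
    have h4 := h1.mul h2
    rw [mul_zero] at h4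
    refine h4.congr' ?_
    filter_upwards [eventually_gt_atTop 0] with n hn
    have hn' : (n : ℝ) ≠ 0 := by positivity
    have h5 : (n : ℝ) ^ e = (n : ℝ) ^ i * (n : ℝ) ^ (e - i) := by
      rw [← pow_add]; congr 1; omega
    rw [h5]
    field_simp

lemma inv_cc_tendsto : Tendsto (fun n => 1 / cc n) atTop (𝓝 0) := by
  simpa using cc_tendsto.const_div_atTop 1

/-- the monic basis -/
noncomputable def bb (m : ℕ) : ℝ[X] :=
  if m % 2 = 0 then Dp (m / 2) else C (1 / 2) * ((C 2 * X + 1) * Dp (m / 2))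

lemma lin_natDegree : (C (1 / 2) * (C 2 * X + 1) : ℝ[X]) = X + C (1 / 2) := by
  rw [mul_add, ← mul_assoc, ← C_mul]
  norm_num

lemma bb_monic (m : ℕ) : (bb m).Monic := by
  unfold bb
  split_ifs
  · exact Dp_monic _
  · rw [← mul_assoc, lin_natDegree]
    exact (monic_X_add_C _).mul (Dp_monic _)

lemma bb_natDegree (m : ℕ) : (bb m).natDegree = m := by
  unfold bb
  split_ifs with h
  · rw [Dp_natDegree]; omega
  · rw [← mul_assoc, lin_natDegree, (monic_X_add_C _).natDegree_mul (Dp_monic _), Dp_natDegree,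
      natDegree_X_add_C]
    omega

lemma bb_coeff (m : ℕ) {j : ℕ} (h : m ≤ j) : (bb m).coeff j = if m = j then 1 else 0 := by
  split_ifs with he
  · subst he
    have := (bb_monic m).coeff_natDegree
    rwa [bb_natDegree] at this
  · exact coeff_eq_zero_of_natDegree_lt (by rw [bb_natDegree]; omega)

lemma bb_lim (m e : ℕ) (h : m ≤ 2 * e + 1) :
    Tendsto (fun n : ℕ => M (bb m) n / (cc n * (n : ℝ) ^ e)) atTop
      (𝓝 ((bb m).coeff (2 * e + 1) / 2 * ∏ i ∈ range e, ((3 : ℝ) / 2 + i))) := by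
  rw [bb_coeff m h]
  by_cases hm : m % 2 = 0
  · have h1 : bb m = Dp (m / 2) := if_pos hm
    have h2 : m ≠ 2 * e + 1 := by omega
    rw [h1, if_neg h2]
    have h3 := (desc_tendsto (show m / 2 ≤ e by omega)).const_mul ((m / 2).factorial : ℝ)
    have h4 := h3.mul inv_cc_tendsto
    rw [mul_zero] at h4
    rw [zero_div, zero_mul]
    refine h4.congr fun n => ?_
    rw [M_Dp]
    have := (cc_pos n).ne'
    field_simp
  · have h1 : bb m = C (1 / 2) * ((C 2 * X + 1) * Dp (m / 2)) := if_neg hm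
    rw [h1]
    have h3 := (desc_tendsto (show m / 2 ≤ e by omega)).const_mul
      (1 / 2 * ∏ i ∈ range (m / 2), ((3 : ℝ) / 2 + i))
    have h5 : (1 / 2 * ∏ i ∈ range (m / 2), ((3 : ℝ) / 2 + i)) * (if m / 2 = e then (1 : ℝ) else 0) =
        (if m = 2 * e + 1 then (1 : ℝ) else 0) / 2 * ∏ i ∈ range e, ((3 : ℝ) / 2 + i) := by
      by_cases h6 : m = 2 * e + 1
      · have h7 : m / 2 = e := by omega
        rw [if_pos h7, if_pos h6, h7]; ring
      · have h7 : m / 2 ≠ e := by omega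
        rw [if_neg h7, if_neg h6]; ring
    rw [h5] at h3
    refine h3.congr fun n => ?_
    rw [M_C_mul, M_two_Dp]
    have := (cc_pos n).ne'
    field_simp

lemma M_lim_aux (N : ℕ) : ∀ q : ℝ[X], q.natDegree ≤ N → ∀ e : ℕ, N ≤ 2 * e + 1 →
    Tendsto (fun n : ℕ => M q n / (cc n * (n : ℝ) ^ e)) atTop
      (𝓝 (q.coeff (2 * e + 1) / 2 * ∏ i ∈ range e, ((3 : ℝ) / 2 + i))) := by
  induction N with
  | zero =>
    intro q hq e he
    have h1 : q = C (q.coeff 0) * bb 0 := by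
      have h2 : bb 0 = 1 := by simp [bb, Dp]
      rw [h2, mul_one]
      exact eq_C_of_natDegree_le_zero hq
    have h3 := (bb_lim 0 e (by omega)).const_mul (q.coeff 0)
    rw [h1]
    have h4 : (C (q.coeff 0) * bb 0).coeff (2 * e + 1) = q.coeff 0 * (bb 0).coeff (2 * e + 1) :=
      coeff_C_mul _
    rw [h4]
    have h5 : q.coeff 0 * ((bb 0).coeff (2 * e + 1) / 2 * ∏ i ∈ range e, ((3 : ℝ) / 2 + i)) =
        q.coeff 0 * (bb 0).coeff (2 * e + 1) / 2 * ∏ i ∈ range e, ((3 : ℝ) / 2 + i) := by ring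
    rw [← h5]
    refine h3.congr fun n => ?_
    rw [M_C_mul]; ring
  | succ N ih =>
    intro q hq e he
    set r : ℝ[X] := q - C (q.coeff (N + 1)) * bb (N + 1) with hr
    have hrdeg : r.natDegree ≤ N := by
      rw [natDegree_le_iff_coeff_eq_zero]
      intro j hj
      rw [hr, coeff_sub, coeff_C_mul, bb_coeff _ (show N + 1 ≤ j by omega)]
      split_ifs with h
      · rw [← h]; ring
      · rw [coeff_eq_zero_of_natDegree_lt (by omega)]; ring
    have h1 := ih r hrdeg e (by omega)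
    have h2 := (bb_lim (N + 1) e he).const_mul (q.coeff (N + 1))
    have h3 := h1.add h2
    have h4 : q = r + C (q.coeff (N + 1)) * bb (N + 1) := by rw [hr]; ring
    have h5 : q.coeff (2 * e + 1) = r.coeff (2 * e + 1) +
        q.coeff (N + 1) * (bb (N + 1)).coeff (2 * e + 1) := by
      conv_lhs => rw [h4]
      rw [coeff_add, coeff_C_mul]
    have h6 : q.coeff (2 * e + 1) / 2 * ∏ i ∈ range e, ((3 : ℝ) / 2 + i) =
        r.coeff (2 * e + 1) / 2 * ∏ i ∈ range e, ((3 : ℝ) / 2 + i) +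
        q.coeff (N + 1) * ((bb (N + 1)).coeff (2 * e + 1) / 2 *
          ∏ i ∈ range e, ((3 : ℝ) / 2 + i)) := by
      rw [h5]; ring
    rw [h6]
    refine h3.congr fun n => ?_
    have h7 : M q n = M r n + q.coeff (N + 1) * M (bb (N + 1)) n := by
      conv_lhs => rw [h4]
      rw [M_add, M_C_mul]
    rw [h7]; ring

lemma M_lim (q : ℝ[X]) (e : ℕ) (h : q.natDegree ≤ 2 * e + 1) :
    Tendsto (fun n : ℕ => M q n / (cc n * (n : ℝ) ^ e)) atTop
      (𝓝 (q.coeff (2 * e + 1) / 2 * ∏ i ∈ range e, ((3 : ℝ) / 2 + i))) :=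
  M_lim_aux (2 * e + 1) q h e le_rfl

end Pool.Agent.N830.Leg
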