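import Pool.Agent.N830.LegB

set_option autoImplicit false

/-!
# Legendre multiplier sequences: the expansion of the test polynomials and the contradiction
-/

open Polynomial Finset Filter Topology

namespace Pool.Agent.N830.Leg

/-- Legendre coefficients of `((1+x)/2)^n` -/
noncomputable def aa (n k : ℕ) : ℝ :=
  ((2 * (k : ℝ) + 1) * ((2 * n + 1).choose (n - k) : ℝ)) /
    ((2 * (n : ℝ) + 1) * ((2 * n).choose n : ℝ))

/-- expansion in powers of `(x-1)/2` -/
lemma expand (q : ℝ[X]) (n : ℕ) :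
    ∑ k ∈ range (n + 1), (q.eval (k : ℝ) * aa n k) • leg k =
      ∑ j ∈ range (n + 1), C (M (q * Dp j) n / ((j.factorial : ℝ) ^ 2)) *
        (C (1 / 2) * (X - C 1)) ^ j := by
  have h1 : ∀ k ∈ range (n + 1), leg k = ∑ j ∈ range (n + 1),
      C (D j ((k : ℝ) * (k + 1)) / ((j.factorial : ℝ) ^ 2)) * (C (1 / 2) * (X - C 1)) ^ j := by
    intro k hk
    have hk' : k + 1 ≤ n + 1 := mem_range.1 hk
    rw [leg_eq]
    refine sum_subset (range_subset_range.2 hk') fun j _ hj => ?_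
    have hj' : k < j := by
      have := mem_range.not.1 hj
      omega
    rw [D_nat_lt hj']
    simp
  have h2 : ∀ k ∈ range (n + 1), (q.eval (k : ℝ) * aa n k) • leg k =
      ∑ j ∈ range (n + 1), C (q.eval (k : ℝ) * aa n k * (D j ((k : ℝ) * (k + 1)) /
        ((j.factorial : ℝ) ^ 2))) * (C (1 / 2) * (X - C 1)) ^ j := by
    intro k hk
    rw [h1 k hk, smul_sum]
    refine sum_congr rfl fun j _ => ?_
    rw [smul_eq_C_mul, ← mul_assoc, ← C_mul]
  rw [sum_congr rfl h2, sum_comm]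
  refine sum_congr rfl fun j _ => ?_
  rw [← sum_mul, ← map_sum]
  congr 2
  unfold M aa
  rw [div_div, sum_div]
  refine sum_congr rfl fun k _ => ?_
  rw [eval_mul, Dp_eval]
  have hp := choose_pos' n
  have h3 : (j.factorial : ℝ) ≠ 0 := by positivity
  have h4 : (2 * (n : ℝ) + 1) ≠ 0 := by positivity
  field_simp

lemma test_poly (n : ℕ) :
    ∑ k ∈ range (n + 1), (aa n k) • leg k = (C (1 / 2) * (X - C 1) + 1) ^ n := by
  have h := expand 1 n
  simp only [eval_one, one_mul, M_Dp] at h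
  rw [h, add_pow]
  refine sum_congr rfl fun j hj => ?_
  rw [one_pow, mul_one, mul_comm]
  congr 1
  have h1 : (n.descFactorial j : ℝ) = (j.factorial : ℝ) * (n.choose j : ℝ) := by
    exact_mod_cast Nat.descFactorial_eq_factorial_mul_choose n j
  rw [h1]
  have h3 : (j.factorial : ℝ) ≠ 0 := by positivity
  have h4 : (j.factorial : ℝ) * ((j.factorial : ℝ) * (n.choose j : ℝ)) / (j.factorial : ℝ) ^ 2 =
      (n.choose j : ℝ) := by field_simp
  rw [h4]
  simp

/-- `t_{n,j}` -/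
noncomputable def tt (q : ℝ[X]) (n j : ℕ) : ℝ := M (q * Dp j) n / ((j.factorial : ℝ) ^ 2)

lemma tt_zero (q : ℝ[X]) {n j : ℕ} (h : n < j) : tt q n j = 0 := by
  unfold tt M
  rw [sum_eq_zero, zero_div, zero_div]
  intro k hk
  have hk' : k < j := by have := mem_range.1 hk; omega
  rw [eval_mul, Dp_eval, D_nat_lt hk']
  ring

lemma tt_lim (q : ℝ[X]) (ρ j : ℕ) (h : q.natDegree = 2 * ρ + 1) :
    Tendsto (fun n : ℕ => tt q n j / (cc n * (n : ℝ) ^ (ρ + j))) atTop
      (𝓝 ((q.coeff (2 * ρ + 1) / 2 * ∏ i ∈ range (ρ + j), ((3 : ℝ) / 2 + i)) /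
        ((j.factorial : ℝ) ^ 2))) := by
  have h1 : (q * Dp j).natDegree ≤ 2 * (ρ + j) + 1 := by
    refine natDegree_mul_le.trans ?_
    rw [h, Dp_natDegree]; omega
  have h2 : (q * Dp j).coeff (2 * (ρ + j) + 1) = q.coeff (2 * ρ + 1) := by
    have h3 : 2 * (ρ + j) + 1 = q.natDegree + (Dp j).natDegree := by
      rw [h, Dp_natDegree]; ring
    rw [h3, coeff_mul_degree_add_degree, (Dp_monic j).leadingCoeff, mul_one]
    unfold leadingCoeff
    rw [h]
  have h4 := (M_lim (q * Dp j) (ρ + j) h1).div_const ((j.factorial : ℝ) ^ 2)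
  rw [h2] at h4
  refine h4.congr fun n => ?_
  unfold tt
  ring

/-! ### the confluent recurrence -/

noncomputable def ff (a : ℝ) (i : ℕ) : ℝ := (∏ l ∈ range i, (a + l)) / ((i.factorial : ℝ) ^ 2)

noncomputable def ee (l : ℕ) : ℝ := (-1) ^ l / (l.factorial : ℝ)

lemma ff_rec (a : ℝ) (i : ℕ) : ((i : ℝ) + 1) ^ 2 * ff a (i + 1) = (a + i) * ff a i := by
  unfold ff
  rw [prod_range_succ, Nat.factorial_succ]
  have h1 : (i.factorial : ℝ) ≠ 0 := by positivity
  have h2 : ((i : ℝ) + 1) ≠ 0 := by positivity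
  push_cast
  field_simp

lemma ee_rec (l : ℕ) : ((l : ℝ) + 1) * ee (l + 1) = -ee l := by
  unfold ee
  rw [Nat.factorial_succ]
  have h1 : (l.factorial : ℝ) ≠ 0 := by positivity
  have h2 : ((l : ℝ) + 1) ≠ 0 := by positivity
  push_cast
  field_simp
  ring

noncomputable def uu (a : ℝ) (j : ℕ) : ℝ := ∑ p ∈ antidiagonal j, ff a p.1 * ee p.2

lemma uu_rec (a : ℝ) (j : ℕ) : ((j : ℝ) + 1) ^ 2 * uu a (j + 1) = (a - 1 - j) * uu a j := by
  set F : PowerSeries ℝ := PowerSeries.mk (ff a) with hF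
  set E : PowerSeries ℝ := PowerSeries.mk ee with hE
  have hu : ∀ j, PowerSeries.coeff j (F * E) = uu a j := by
    intro j
    rw [PowerSeries.coeff_mul]
    unfold uu
    refine sum_congr rfl fun p _ => ?_
    rw [hF, hE, PowerSeries.coeff_mk, PowerSeries.coeff_mk]
  let dd := PowerSeries.derivative ℝ
  have hE' : dd E = -E := by
    ext n
    show PowerSeries.coeff n (PowerSeries.derivative ℝ E) = _
    rw [PowerSeries.coeff_derivative, map_neg, hE, PowerSeries.coeff_mk, PowerSeries.coeff_mk,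
      mul_comm, ee_rec]
  have hF' : PowerSeries.X * dd (dd F) + (1 - PowerSeries.X) * dd F - PowerSeries.C a * F = 0 := by
    ext n
    have h1 : ∀ m, PowerSeries.coeff m (dd F) = ff a (m + 1) * ((m : ℝ) + 1) := by
      intro m
      show PowerSeries.coeff m (PowerSeries.derivative ℝ F) = _
      rw [PowerSeries.coeff_derivative, hF, PowerSeries.coeff_mk]
    have h2 : ∀ m, PowerSeries.coeff m (dd (dd F)) =
        ff a (m + 2) * ((m : ℝ) + 2) * ((m : ℝ) + 1) := by
      intro m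
      show PowerSeries.coeff m (PowerSeries.derivative ℝ (dd F)) = _
      rw [PowerSeries.coeff_derivative, h1]
      push_cast; ring
    rw [sub_mul, one_mul, map_zero, map_sub, map_add, map_sub, PowerSeries.coeff_C_mul, hF,
      PowerSeries.coeff_mk, ← hF, h1]
    cases n with
    | zero =>
      rw [PowerSeries.coeff_zero_X_mul, PowerSeries.coeff_zero_X_mul]
      have := ff_rec a 0
      push_cast at this ⊢
      linear_combination this
    | succ n =>
      rw [PowerSeries.coeff_succ_X_mul, PowerSeries.coeff_succ_X_mul, h1, h2]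
      have := ff_rec a (n + 1)
      push_cast at this ⊢
      linear_combination this
  have hU : PowerSeries.X * dd (dd (F * E)) + (1 + PowerSeries.X) * dd (F * E) +
      (1 - PowerSeries.C a) * (F * E) = 0 := by
    have e1 : dd (F * E) = dd F * E - F * E := by
      have := Derivation.leibniz dd F E
      rw [this, hE', smul_eq_mul, smul_eq_mul]; ring
    have e2 : dd (dd F * E) = dd (dd F) * E - dd F * E := by
      have := Derivation.leibniz dd (dd F) E
      rw [this, hE', smul_eq_mul, smul_eq_mul]; ring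
    have e3 : dd (dd (F * E)) = dd (dd F) * E - dd F * E - (dd F * E - F * E) := by
      rw [e1, map_sub, e2, e1]
    rw [e3, e1]
    linear_combination E * hF'
  have hc := congrArg (PowerSeries.coeff j) hU
  have h1 : ∀ m, PowerSeries.coeff m (dd (F * E)) = uu a (m + 1) * ((m : ℝ) + 1) := by
    intro m
    show PowerSeries.coeff m (PowerSeries.derivative ℝ (F * E)) = _
    rw [PowerSeries.coeff_derivative, hu]
  have h2 : ∀ m, PowerSeries.coeff m (dd (dd (F * E))) =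
      uu a (m + 2) * ((m : ℝ) + 2) * ((m : ℝ) + 1) := by
    intro m
    show PowerSeries.coeff m (PowerSeries.derivative ℝ (dd (F * E))) = _
    rw [PowerSeries.coeff_derivative, h1]
    push_cast; ring
  rw [add_mul, sub_mul, one_mul, one_mul, map_zero, map_add, map_add, map_add, map_sub,
    PowerSeries.coeff_C_mul, hu, h1] at hc
  cases j with
  | zero =>
    rw [PowerSeries.coeff_zero_X_mul, PowerSeries.coeff_zero_X_mul] at hc
    push_cast at hc ⊢
    linear_combination hc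
  | succ n =>
    rw [PowerSeries.coeff_succ_X_mul, PowerSeries.coeff_succ_X_mul, h1, h2] at hc
    push_cast at hc ⊢
    linear_combination hc

lemma uu_pos (ρ : ℕ) (j : ℕ) (h : j ≤ ρ + 1) : 0 < uu ((ρ : ℝ) + 3 / 2) j := by
  induction j with
  | zero => simp [uu, ff, ee]
  | succ j ih =>
    have h1 := uu_rec ((ρ : ℝ) + 3 / 2) j
    have h2 := ih (by omega)
    have h3 : (j : ℝ) ≤ ρ := by exact_mod_cast (by omega : j ≤ ρ)
    have h4 : 0 < ((j : ℝ) + 1) ^ 2 * uu ((ρ : ℝ) + 3 / 2) (j + 1) := by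
      rw [h1]
      exact mul_pos (by linarith) h2
    exact (mul_pos_iff_of_pos_left (by positivity)).1 h4

lemma uu_bad (ρ : ℕ) : ((ρ : ℝ) + 2) * uu ((ρ : ℝ) + 3 / 2) (ρ + 2) ^ 2 <
    ((ρ : ℝ) + 3) * (uu ((ρ : ℝ) + 3 / 2) (ρ + 1) * uu ((ρ : ℝ) + 3 / 2) (ρ + 3)) := by
  have h0 := uu_pos ρ (ρ + 1) le_rfl
  have h1 := uu_rec ((ρ : ℝ) + 3 / 2) (ρ + 1)
  have h2 := uu_rec ((ρ : ℝ) + 3 / 2) (ρ + 2)
  push_cast at h1 h2
  rw [show ρ + 1 + 1 = ρ + 2 by ring] at h1
  rw [show ρ + 2 + 1 = ρ + 3 by ring] at h2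
  set x := uu ((ρ : ℝ) + 3 / 2) (ρ + 1)
  set y := uu ((ρ : ℝ) + 3 / 2) (ρ + 2)
  set z := uu ((ρ : ℝ) + 3 / 2) (ρ + 3)
  have hr : (0 : ℝ) ≤ ρ := Nat.cast_nonneg ρ
  have e1 : y = -(x / (2 * ((ρ : ℝ) + 2) ^ 2)) := by
    have : ((ρ : ℝ) + 2) ^ 2 ≠ 0 := by positivity
    field_simp
    linear_combination 2 * h1
  have e2 : z = 3 * x / (4 * ((ρ : ℝ) + 2) ^ 2 * ((ρ : ℝ) + 3) ^ 2) := by
    have h3 : ((ρ : ℝ) + 3) ^ 2 * z = -3 / 2 * y := by linear_combination h2
    rw [e1] at h3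
    have : ((ρ : ℝ) + 2) ^ 2 ≠ 0 := by positivity
    have : ((ρ : ℝ) + 3) ^ 2 ≠ 0 := by positivity
    field_simp at h3 ⊢
    linear_combination h3
  rw [e1, e2]
  have h5 : ((ρ : ℝ) + 2) * (-(x / (2 * ((ρ : ℝ) + 2) ^ 2))) ^ 2 =
      x ^ 2 / (4 * ((ρ : ℝ) + 2) ^ 3) := by
    field_simp; ring
  have h6 : ((ρ : ℝ) + 3) * (x * (3 * x / (4 * ((ρ : ℝ) + 2) ^ 2 * ((ρ : ℝ) + 3) ^ 2))) =
      3 * x ^ 2 / (4 * ((ρ : ℝ) + 2) ^ 2 * ((ρ : ℝ) + 3)) := by
    field_simp
  rw [h5, h6, div_lt_div_iff₀ (by positivity) (by positivity)]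
  have h7 : 0 < x ^ 2 * ((ρ : ℝ) + 2) ^ 2 := by positivity
  nlinarith [mul_pos h7 (show (0 : ℝ) < 2 * ρ + 3 by positivity)]

end Pool.Agent.N830.Leg
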