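import Pool.Agent.N830.LegC

set_option autoImplicit false

/-!
# No Legendre multiplier sequence is interpolated by a polynomial of odd degree
-/

open Polynomial Finset Filter Topology

namespace Pool.Agent.N830.Leg

/-- all complex zeros are real; the zero polynomial is allowed by convention -/
def OnlyRealZeros (p : ℝ[X]) : Prop := p = 0 ∨ ∀ z : ℂ, aeval z p = 0 → z.im = 0

/-- Legendre multiplier sequences -/
def IsLegendreMS (γ : ℕ → ℝ) : Prop :=
  ∀ a : ℕ →₀ ℝ, OnlyRealZeros (a.sum fun k c => c • leg k) →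
    OnlyRealZeros (a.sum fun k c => (γ k * c) • leg k)

lemma OnlyRealZeros.splits {p : ℝ[X]} (h : OnlyRealZeros p) : p.Splits := by
  by_cases hp : p = 0
  · rw [hp]; exact Splits.zero
  have h' := h.resolve_left hp
  refine Splits.of_splits_map (algebraMap ℝ ℂ) (IsAlgClosed.splits _) ?_
  intro z hz
  rw [mem_roots_map hp, ← aeval_def] at hz
  exact ⟨z.re, Complex.ext rfl (by simpa using (h' z hz).symm)⟩

lemma onlyReal_test (n : ℕ) : OnlyRealZeros ((C (1 / 2) * (X - C 1) + 1 : ℝ[X]) ^ n) := by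
  right
  intro z hz
  rw [map_pow] at hz
  rcases Nat.eq_zero_or_pos n with hn | hn
  · rw [hn, pow_zero] at hz
    exact absurd hz one_ne_zero
  · have h2 := (pow_eq_zero_iff hn.ne').1 hz
    simp only [map_add, map_mul, map_sub, aeval_C, aeval_X, map_one] at h2
    have h3 := congrArg Complex.im h2
    simp at h3
    exact h3

/-- coefficient vector of the test polynomial -/
noncomputable def av (n : ℕ) : ℕ →₀ ℝ :=
  Finsupp.onFinset (range (n + 1)) (fun k => if k ∈ range (n + 1) then aa n k else 0)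
    (fun k hk => by
      by_contra h
      exact hk (if_neg h))

lemma av_sum (n : ℕ) (g : ℕ → ℝ) :
    ((av n).sum fun k c => (g k * c) • leg k) = ∑ k ∈ range (n + 1), (g k * aa n k) • leg k := by
  unfold av
  rw [Finsupp.onFinset_sum _ (fun k => by simp)]
  refine sum_congr rfl fun k hk => ?_
  rw [if_pos hk]

/-- the transformed test polynomial is real-rooted -/
lemma transformed {Q : ℝ[X]} (h : IsLegendreMS (fun k => Q.eval (k : ℝ))) (n : ℕ) :
    (∑ j ∈ range (n + 1), C (tt Q n j) * (C (1 / 2) * (X - C 1)) ^ j : ℝ[X]).Splits := by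
  have h1 := h (av n)
  have h2 : ((av n).sum fun k c => c • leg k) = (C (1 / 2) * (X - C 1) + 1 : ℝ[X]) ^ n := by
    have := av_sum n (fun _ => 1)
    simp only [one_mul] at this
    rw [this, test_poly]
  rw [h2, av_sum, expand] at h1
  exact (h1 (onlyReal_test n)).splits

lemma scaled {Q : ℝ[X]} (h : IsLegendreMS (fun k => Q.eval (k : ℝ))) (n : ℕ) (c s : ℝ) :
    (∑ j ∈ range (n + 1), C (c * tt Q n j * s ^ j) * X ^ j : ℝ[X]).Splits := by
  have h1 := (transformed h n).comp_of_natDegree_le_one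
    (g := C (2 * s) * X + C 1) (by compute_degree)
  have h2 := (Splits.C c).mul h1
  have h3 : C c * (∑ j ∈ range (n + 1), C (tt Q n j) * (C (1 / 2) * (X - C 1)) ^ j : ℝ[X]).comp
      (C (2 * s) * X + C 1) = ∑ j ∈ range (n + 1), C (c * tt Q n j * s ^ j) * X ^ j := by
    rw [← coe_compRingHom_apply, map_sum, mul_sum]
    refine sum_congr rfl fun j _ => ?_
    rw [coe_compRingHom_apply, mul_comp, C_comp, pow_comp, mul_comp, C_comp, sub_comp, X_comp, C_comp, add_sub_cancel_right,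
      ← mul_assoc (C (1 / 2)), ← C_mul, mul_pow]
    have : (1 / 2 * (2 * s)) = s := by ring
    rw [this, ← C_pow, C_mul, C_mul]
    ring
  rwa [h3] at h2

lemma scaled_coeff (Q : ℝ[X]) (n : ℕ) (c s : ℝ) (j : ℕ) :
    (∑ i ∈ range (n + 1), C (c * tt Q n i * s ^ i) * X ^ i : ℝ[X]).coeff j = c * tt Q n j * s ^ j := by
  rw [finsetSum_coeff]
  simp only [coeff_C_mul, coeff_X_pow, mul_ite, mul_one, mul_zero]
  rw [sum_ite_eq]
  split_ifs with h
  · rfl
  · rw [tt_zero Q (by have := mem_range.not.1 h; omega)]; ring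

lemma linpow_splits (n : ℕ) (s : ℝ) : ((1 - C s * X : ℝ[X]) ^ n).Splits := by
  refine Splits.pow ?_ n
  have : (1 - C s * X : ℝ[X]) = (X : ℝ[X]).comp (1 - C s * X) := by simp
  rw [this]
  exact Splits.X.comp_of_natDegree_le_one (by
    refine (natDegree_sub_le _ _).trans ?_
    simp only [natDegree_one]
    exact max_le (by omega) (by compute_degree))

lemma linpow_coeff (n : ℕ) (s : ℝ) (l : ℕ) :
    ((1 - C s * X : ℝ[X]) ^ n).coeff l = (-s) ^ l * (n.choose l : ℝ) := by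
  have h1 : (1 - C s * X : ℝ[X]) = C (-s) * X + 1 := by rw [C_neg]; ring
  rw [h1, add_pow, finsetSum_coeff]
  have h2 : ∀ m ∈ range (n + 1), ((C (-s) * X) ^ m * 1 ^ (n - m) * ((n.choose m : ℕ) : ℝ[X])).coeff l =
      if l = m then (-s) ^ m * (n.choose m : ℝ) else 0 := by
    intro m _
    rw [one_pow, mul_one, mul_pow, ← C_pow]
    have : (C ((-s) ^ m) * X ^ m * ((n.choose m : ℕ) : ℝ[X])) =
        C ((-s) ^ m * (n.choose m : ℝ)) * X ^ m := by
      rw [C_mul]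
      have : (C ((n.choose m : ℕ) : ℝ) : ℝ[X]) = ((n.choose m : ℕ) : ℝ[X]) := by simp
      rw [this]; ring
    rw [this, coeff_C_mul, coeff_X_pow, mul_ite, mul_one, mul_zero]
  rw [sum_congr rfl h2, sum_ite_eq]
  split_ifs with h
  · rfl
  · rw [Nat.choose_eq_zero_of_lt (by have := mem_range.not.1 h; omega)]; simp

lemma linpow_lim (l : ℕ) :
    Tendsto (fun n : ℕ => ((1 - C (1 / (n : ℝ)) * X : ℝ[X]) ^ n).coeff l) atTop (𝓝 (ee l)) := by
  have h1 := (desc_tendsto (le_refl l)).const_mul (ee l)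
  rw [if_pos rfl, mul_one] at h1
  refine h1.congr fun n => ?_
  rw [linpow_coeff]
  unfold ee
  have h2 : (n.descFactorial l : ℝ) = (l.factorial : ℝ) * (n.choose l : ℝ) := by
    exact_mod_cast Nat.descFactorial_eq_factorial_mul_choose n l
  have h3 : (l.factorial : ℝ) ≠ 0 := by positivity
  rw [h2, neg_eq_neg_one_mul (1 / (n : ℝ)), mul_pow, one_div_pow]
  field_simp

/-- the limit coefficients -/
noncomputable def K (Q : ℝ[X]) (ρ : ℕ) : ℝ :=
  Q.coeff (2 * ρ + 1) / 2 * ∏ i ∈ range ρ, ((3 : ℝ) / 2 + i)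

lemma prod_split (ρ j : ℕ) : (∏ i ∈ range (ρ + j), ((3 : ℝ) / 2 + i)) =
    (∏ i ∈ range ρ, ((3 : ℝ) / 2 + i)) * ∏ l ∈ range j, ((ρ : ℝ) + 3 / 2 + l) := by
  rw [prod_range_add]
  congr 1
  refine prod_congr rfl fun l _ => ?_
  push_cast; ring

theorem main {Q : ℝ[X]} (hQ : Odd Q.natDegree) : ¬ IsLegendreMS (fun k => Q.eval (k : ℝ)) := by
  intro h
  obtain ⟨ρ, hρ⟩ := hQ
  have hlead : Q.coeff (2 * ρ + 1) ≠ 0 := by
    rw [← hρ]
    have hne : Q ≠ 0 := by
      rintro rfl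
      simp at hρ
    exact leadingCoeff_ne_zero.2 hne
  have hK : K Q ρ ≠ 0 := by
    unfold K
    have : (0 : ℝ) < ∏ i ∈ range ρ, ((3 : ℝ) / 2 + i) := prod_pos fun i _ => by positivity
    positivity
  -- the polynomials
  let g : ℕ → ℝ[X] := fun n => ∑ j ∈ range (n + 1),
    C (1 / (cc n * (n : ℝ) ^ ρ) * tt Q n j * (1 / (n : ℝ)) ^ j) * X ^ j
  let G : ℕ → ℝ[X] := fun n => g n * (1 - C (1 / (n : ℝ)) * X) ^ n
  have hG : ∀ n, (G n).Splits := fun n => (scaled h n _ _).mul (linpow_splits n _)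
  have hg : ∀ j, Tendsto (fun n => (g n).coeff j) atTop (𝓝 (K Q ρ * ff ((ρ : ℝ) + 3 / 2) j)) := by
    intro j
    have h1 := tt_lim Q ρ j hρ
    have h2 : (Q.coeff (2 * ρ + 1) / 2 * ∏ i ∈ range (ρ + j), ((3 : ℝ) / 2 + i)) /
        ((j.factorial : ℝ) ^ 2) = K Q ρ * ff ((ρ : ℝ) + 3 / 2) j := by
      rw [prod_split]; unfold K ff; ring
    rw [h2] at h1
    refine h1.congr fun n => ?_
    show _ = (∑ i ∈ range (n + 1),
      C (1 / (cc n * (n : ℝ) ^ ρ) * tt Q n i * (1 / (n : ℝ)) ^ i) * X ^ i : ℝ[X]).coeff j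
    rw [scaled_coeff, one_div_pow, pow_add]
    rw [div_mul_eq_mul_div, one_mul, div_mul_div_comm, mul_one, mul_assoc]
  have hlim : ∀ j, Tendsto (fun n => (G n).coeff j) atTop
      (𝓝 (K Q ρ * uu ((ρ : ℝ) + 3 / 2) j)) := by
    intro j
    have h1 : ∀ n, (G n).coeff j = ∑ p ∈ antidiagonal j, (g n).coeff p.1 *
        ((1 - C (1 / (n : ℝ)) * X : ℝ[X]) ^ n).coeff p.2 := fun n => coeff_mul _ _ _
    simp only [h1]
    have h2 : K Q ρ * uu ((ρ : ℝ) + 3 / 2) j = ∑ p ∈ antidiagonal j,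
        (K Q ρ * ff ((ρ : ℝ) + 3 / 2) p.1) * ee p.2 := by
      unfold uu
      rw [mul_sum]
      refine sum_congr rfl fun p _ => by ring
    rw [h2]
    exact tendsto_finsetSum _ fun p _ => (hg p.1).mul (linpow_lim p.2)
  have hNewton : ∀ n, ((ρ : ℝ) + 3) * ((G n).coeff (ρ + 1) * (G n).coeff (ρ + 3)) ≤
      ((ρ : ℝ) + 2) * (G n).coeff (ρ + 2) ^ 2 := by
    intro n
    set d := (G n).natDegree + ρ + 4 with hd
    have h1 := RR722.NW.newton_deg (hG n) d (by omega) (ρ + 1) (by omega)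
    push_cast at h1
    rw [show ρ + 1 + 2 = ρ + 3 by ring, show ρ + 1 + 1 = ρ + 2 by ring] at h1
    have h2 : (0 : ℝ) < (d : ℝ) - ((ρ : ℝ) + 1) := by
      rw [hd]; push_cast
      have : (0 : ℝ) ≤ ((G n).natDegree : ℝ) := Nat.cast_nonneg _
      linarith
    have h3 : ((ρ : ℝ) + 1 + 1) * ((d : ℝ) - ((ρ : ℝ) + 1) - 1) * (G n).coeff (ρ + 2) ^ 2 ≤
        ((ρ : ℝ) + 1 + 1) * ((d : ℝ) - ((ρ : ℝ) + 1)) * (G n).coeff (ρ + 2) ^ 2 := by
      have h4 : (0 : ℝ) ≤ ((ρ : ℝ) + 1 + 1) * (G n).coeff (ρ + 2) ^ 2 := by positivity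
      nlinarith
    have h5 := h1.trans h3
    have h6 : ((d : ℝ) - ((ρ : ℝ) + 1)) * (((ρ : ℝ) + 3) * ((G n).coeff (ρ + 1) * (G n).coeff (ρ + 3))) ≤
        ((d : ℝ) - ((ρ : ℝ) + 1)) * (((ρ : ℝ) + 2) * (G n).coeff (ρ + 2) ^ 2) := by
      linarith
    exact le_of_mul_le_mul_left h6 h2
  have hfin := le_of_tendsto_of_tendsto' (((hlim (ρ + 1)).mul (hlim (ρ + 3))).const_mul ((ρ : ℝ) + 3))
    (((hlim (ρ + 2)).pow 2).const_mul ((ρ : ℝ) + 2)) hNewton
  have hbad := uu_bad ρ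
  have hK2 : 0 < (K Q ρ) ^ 2 := by positivity
  nlinarith [mul_pos hK2 (sub_pos.2 hbad)]

end Pool.Agent.N830.Leg
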