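import Pool.Agent.W753.CZ.Crouzeix

set_option autoImplicit false

/-! # A Crouzeix-type bound for scaled `q`-numerical ranges

For `0 < q ≤ 1` put `κ = (1 + √(1 - q²)) / q`. If `|p| ≤ M` on `Ω_q(A) = W_q(A) / q` then
`‖p(A)‖ ≤ max 1 (2 / κ) M`. -/

open Polynomial Set Topology

namespace Pool.Agent.N830.QCrouzeix

variable {E : Type*} [NormedAddCommGroup E] [InnerProductSpace ℂ E]

/-- If `<g, v> = 0` then moving `w` in the direction `g` does not change `<w, v>`; the maximum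
principle bounds `|p(<A w, v>)|` by the values at the pairs with `‖w‖ ‖v‖ = 1 / q`. -/
theorem hull (A : E →L[ℂ] E) (q : ℝ) (hq0 : 0 < q) (p : ℂ[X]) (M : ℝ)
    (hdim : ∀ v : E, (∃ g : E, ‖g‖ = 1 ∧ inner ℂ v g = 0) ∨ q = 1)
    (hM : ∀ x y : E, ‖x‖ = 1 → ‖y‖ = 1 → inner ℂ y x = (q : ℂ) →
      ‖p.eval (inner ℂ y (A x) / q)‖ ≤ M)
    (w v : E) (hwv : inner ℂ v w = 1) (hn : ‖w‖ * ‖v‖ ≤ 1 / q) :
    ‖p.eval (inner ℂ v (A w))‖ ≤ M := by
  have hqc : (q : ℂ) ≠ 0 := by exact_mod_cast hq0.ne'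
  -- the boundary case
  have key : ∀ w : E, inner ℂ v w = 1 → ‖w‖ * ‖v‖ = 1 / q → ‖p.eval (inner ℂ v (A w))‖ ≤ M := by
    intro w hwv hn
    have hv0 : ‖v‖ ≠ 0 := by
      intro h
      rw [h, mul_zero] at hn
      have : (0 : ℝ) < 1 / q := by positivity
      linarith
    have hw0 : ‖w‖ ≠ 0 := by
      intro h
      rw [h, zero_mul] at hn
      have : (0 : ℝ) < 1 / q := by positivity
      linarith
    have hx : ‖((‖w‖⁻¹ : ℝ) : ℂ) • w‖ = 1 := by
      rw [norm_smul, Complex.norm_real, norm_inv, norm_norm, inv_mul_cancel₀ hw0]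
    have hy : ‖((‖v‖⁻¹ : ℝ) : ℂ) • v‖ = 1 := by
      rw [norm_smul, Complex.norm_real, norm_inv, norm_norm, inv_mul_cancel₀ hv0]
    have hprod : ‖v‖⁻¹ * ‖w‖⁻¹ = q := by
      rw [← mul_inv, mul_comm ‖v‖ ‖w‖, hn, one_div, inv_inv]
    have hprodc : ((‖v‖⁻¹ : ℝ) : ℂ) * ((‖w‖⁻¹ : ℝ) : ℂ) = (q : ℂ) := by
      rw [← Complex.ofReal_mul, hprod]
    have h := hM _ _ hx hy (by
      rw [inner_smul_left, inner_smul_right, Complex.conj_ofReal, hwv, mul_one, hprodc])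
    rw [map_smul, inner_smul_left, inner_smul_right, Complex.conj_ofReal, ← mul_assoc, hprodc,
      mul_div_cancel_left₀ _ hqc] at h
    exact h
  rcases hn.lt_or_eq with hlt | heq
  swap
  · exact key w hwv heq
  rcases hdim v with ⟨g, hg, hvg⟩ | hq1
  swap
  · exfalso
    have h1 : ‖inner ℂ v w‖ ≤ ‖v‖ * ‖w‖ := norm_inner_le_norm _ _
    rw [hwv, norm_one] at h1
    rw [hq1] at hlt
    norm_num at hlt
    linarith [mul_comm ‖v‖ ‖w‖]
  have hv0 : 0 < ‖v‖ := by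
    rcases (norm_nonneg v).lt_or_eq with h | h
    · exact h
    · exfalso
      have : v = 0 := norm_eq_zero.mp h.symm
      rw [this, inner_zero_left] at hwv
      exact zero_ne_one hwv
  set U : Set ℂ := {ζ : ℂ | ‖w + ζ • g‖ * ‖v‖ < 1 / q} with hU
  have hbdd : Bornology.IsBounded U := by
    rw [isBounded_iff_forall_norm_le]
    refine ⟨1 / q / ‖v‖ + ‖w‖, ?_⟩
    intro ζ hζ
    have h1 : ‖w + ζ • g‖ < 1 / q / ‖v‖ := by
      rw [lt_div_iff₀ hv0]; exact hζ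
    have h2 : ‖ζ • g‖ ≤ ‖w + ζ • g‖ + ‖w‖ := by
      have : ζ • g = (w + ζ • g) - w := by abel
      rw [this]
      exact (norm_sub_le _ _).trans (by rw [add_sub_cancel_left])
    rw [norm_smul, hg, mul_one] at h2
    linarith
  have hfr : ∀ ζ ∈ frontier U, ‖p.eval (inner ℂ v (A (w + ζ • g)))‖ ≤ M := by
    intro ζ hζ
    have h1 : ‖w + ζ • g‖ * ‖v‖ = 1 / q :=
      frontier_lt_subset_eq (f := fun ζ : ℂ => ‖w + ζ • g‖ * ‖v‖) (g := fun _ => 1 / q)
        (by fun_prop) continuous_const hζ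
    refine key _ ?_ h1
    rw [inner_add_right, inner_smul_right, hvg, mul_zero, add_zero, hwv]
  have hd : DiffContOnCl ℂ (fun ζ : ℂ => p.eval (inner ℂ v (A (w + ζ • g)))) U := by
    apply Differentiable.diffContOnCl
    have : (fun ζ : ℂ => p.eval (inner ℂ v (A (w + ζ • g)))) =
        fun ζ : ℂ => p.eval (inner ℂ v (A w) + ζ * inner ℂ v (A g)) := by
      funext ζ
      rw [map_add, map_smul, inner_add_right, inner_smul_right]
    rw [this]
    fun_prop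
  have h0 : (0 : ℂ) ∈ closure U := by
    apply subset_closure
    show ‖w + (0 : ℂ) • g‖ * ‖v‖ < 1 / q
    rw [zero_smul, add_zero]
    exact hlt
  have := Complex.norm_le_of_forall_mem_frontier_norm_le hbdd hd hfr h0
  simpa using this

/-- `S z = z + (k - 1) <z, y> y`. -/
noncomputable def Sop (y : E) (k : ℝ) : E →L[ℂ] E :=
  ContinuousLinearMap.id ℂ E + ((k - 1 : ℝ) : ℂ) • (innerSL ℂ y).smulRight y

theorem Sop_apply (y : E) (k : ℝ) (z : E) :
    Sop y k z = z + (((k - 1 : ℝ) : ℂ) * inner ℂ y z) • y := by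
  simp [Sop, smul_smul]

theorem Sop_mul (y : E) (hy : ‖y‖ = 1) (k l : ℝ) (hkl : k * l = 1) (z : E) :
    Sop y k (Sop y l z) = z := by
  have hyy : inner ℂ y y = (1 : ℂ) := by rw [inner_self_eq_norm_sq_to_K, hy]; simp
  rw [Sop_apply, Sop_apply, inner_add_right, inner_smul_right, hyy, add_assoc, ← add_smul]
  have : (((l - 1 : ℝ) : ℂ) * inner ℂ y z + ((k - 1 : ℝ) : ℂ) *
      (inner ℂ y z + ((l - 1 : ℝ) : ℂ) * inner ℂ y z * 1)) = 0 := by
    have h2 : (((l - 1 : ℝ) : ℂ) + ((k - 1 : ℝ) : ℂ) * (1 + ((l - 1 : ℝ) : ℂ))) = 0 := by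
      rw [show (1 + ((l - 1 : ℝ) : ℂ)) = (l : ℂ) by push_cast; ring]
      have : ((k : ℂ) * l) = 1 := by exact_mod_cast hkl
      push_cast
      linear_combination this
    linear_combination (inner ℂ y z) * h2
  rw [this, zero_smul, add_zero]

theorem Sop_symm (y : E) (k : ℝ) (u v : E) : inner ℂ (Sop y k u) v = inner ℂ u (Sop y k v) := by
  rw [Sop_apply, Sop_apply, inner_add_left, inner_add_right, inner_smul_left, inner_smul_right,
    map_mul, Complex.conj_ofReal, inner_conj_symm]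
  ring

theorem Sop_norm (y : E) (hy : ‖y‖ = 1) (k : ℝ) (u : E) :
    ‖Sop y k u‖ ^ 2 = ‖u‖ ^ 2 + (k ^ 2 - 1) * ‖inner ℂ y u‖ ^ 2 := by
  rw [Sop_apply, @norm_add_sq ℂ, norm_smul, hy, inner_smul_right, norm_mul, mul_one]
  have h1 : (((k - 1 : ℝ) : ℂ) * inner ℂ y u * inner ℂ u y) =
      (((k - 1) * ‖inner ℂ y u‖ ^ 2 : ℝ) : ℂ) := by
    rw [mul_assoc, ← inner_conj_symm u y, Complex.mul_conj, Complex.normSq_eq_norm_sq]
    push_cast; ring
  rw [h1, Complex.norm_real, mul_pow, Real.norm_eq_abs, sq_abs]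
  simp only [RCLike.re_eq_complex_re, Complex.ofReal_re]
  ring

/-- Kantorovich's inequality in the special case needed here. -/
theorem kant (y : E) (hy : ‖y‖ = 1) (q k : ℝ) (hk : 0 < k) (hkq : k + k⁻¹ = 2 / q)
    (u : E) (hu : ‖u‖ = 1) : ‖Sop y k⁻¹ u‖ * ‖Sop y k u‖ ≤ 1 / q := by
  have h1 := Sop_norm y hy k u
  have h2 := Sop_norm y hy k⁻¹ u
  set t := ‖inner ℂ y u‖ ^ 2 with ht
  rw [hu] at h1 h2
  have hq' : 1 / q = (k + k⁻¹) / 2 := by rw [hkq]; ring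
  rw [hq']
  have h3 : (‖Sop y k⁻¹ u‖ * ‖Sop y k u‖) ^ 2 ≤ ((k + k⁻¹) / 2) ^ 2 := by
    rw [mul_pow, h1, h2]
    have hkk : k * k⁻¹ = 1 := mul_inv_cancel₀ hk.ne'
    have e : ((k + k⁻¹) / 2) ^ 2 - (1 ^ 2 + (k⁻¹ ^ 2 - 1) * t) * (1 ^ 2 + (k ^ 2 - 1) * t) =
        ((k - k⁻¹) * (t - 1 / 2)) ^ 2 := by
      have : k⁻¹ ^ 2 * k ^ 2 = 1 := by rw [← mul_pow, mul_comm, hkk, one_pow]
      linear_combination (t ^ 2 + 1 / 2 * 1 - 1 / 2) * (-1) * this + 
        (2 * (t - 1 / 2) ^ 2 + 1 / 2) * hkk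
    nlinarith [sq_nonneg ((k - k⁻¹) * (t - 1 / 2))]
  exact le_of_sq_le_sq h3 (by positivity)

/-- Conjugating a polynomial in an operator. -/
theorem aeval_conj (A S S' : E →L[ℂ] E) (h : S' * S = 1) (h' : S * S' = 1) (f : ℂ[X]) :
    aeval (S * A * S') f = S * aeval A f * S' := by
  induction f using Polynomial.induction_on' with
  | add f g hf hg => rw [map_add, map_add, hf, hg, mul_add, add_mul]
  | monomial n a =>
    have hpow : (S * A * S') ^ n = S * A ^ n * S' := by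
      induction n with
      | zero => rw [pow_zero, pow_zero, mul_one, h']
      | succ n ih =>
        rw [pow_succ, ih, pow_succ]
        calc S * A ^ n * S' * (S * A * S') = S * A ^ n * (S' * S) * A * S' := by
              simp only [mul_assoc]
          _ = S * (A ^ n * A) * S' := by rw [h, mul_one]; simp only [mul_assoc]
    rw [aeval_monomial, aeval_monomial, hpow, Algebra.algebraMap_eq_smul_one, smul_mul_assoc,
      one_mul, smul_mul_assoc, one_mul, mul_smul_comm, smul_mul_assoc]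

/-- polynomials bounded by `1` on `Ω_q` (real `q`) -/
def Good (A : E →L[ℂ] E) (q : ℝ) (f : ℂ[X]) : Prop :=
  ∀ x y : E, ‖x‖ = 1 → ‖y‖ = 1 → inner ℂ y x = (q : ℂ) →
      ‖f.eval (inner ℂ y (A x) / q)‖ ≤ 1

/-- For `S = Sop y κ`, the operator `S f(A) S⁻¹` has norm at most `2`. -/
theorem conj_bound [Nontrivial E] [CompleteSpace E] (A : E →L[ℂ] E) (q k : ℝ) (hq0 : 0 < q)
    (hk : 0 < k) (hkq : k + k⁻¹ = 2 / q)
    (hdim : ∀ v : E, (∃ g : E, ‖g‖ = 1 ∧ inner ℂ v g = 0) ∨ q = 1)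
    (y : E) (hy : ‖y‖ = 1) (f : ℂ[X]) (hf : Good A q f) :
    ‖Sop y k * aeval A f * Sop y k⁻¹‖ ≤ 2 := by
  have h1 : Sop y k⁻¹ * Sop y k = 1 := by
    ext z; exact Sop_mul y hy _ _ (inv_mul_cancel₀ hk.ne') z
  have h2 : Sop y k * Sop y k⁻¹ = 1 := by
    ext z; exact Sop_mul y hy _ _ (mul_inv_cancel₀ hk.ne') z
  rw [← aeval_conj A _ _ h1 h2]
  have := Pool.Agent.W753.CZ.crouzeix_bound (Sop y k * A * Sop y k⁻¹) f 1 ?_
  · simpa using this
  rintro w ⟨u, hu, rfl⟩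
  have h3 : inner ℂ u ((Sop y k * A * Sop y k⁻¹) u) =
      inner ℂ (Sop y k u) (A (Sop y k⁻¹ u)) := by
    rw [Sop_symm]; rfl
  rw [h3]
  refine hull A q hq0 f 1 hdim hf _ _ ?_ (kant y hy q k hk hkq u hu)
  rw [Sop_symm]
  have : Sop y k (Sop y k⁻¹ u) = u := Sop_mul y hy _ _ (mul_inv_cancel₀ hk.ne') u
  rw [this, inner_self_eq_norm_sq_to_K, hu]
  simp

/-- The variation: `(f - a)(1 + ā f) / (1 + |a|²)`. -/
noncomputable def vary (a : ℂ) (f : ℂ[X]) : ℂ[X] :=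
  C (((1 + ‖a‖ ^ 2 : ℝ) : ℂ)⁻¹) * ((f - C a) * (1 + C (starRingEnd ℂ a) * f))

theorem vary_eval (a w : ℂ) (hw : ‖w‖ ≤ 1) :
    ‖((1 + ‖a‖ ^ 2 : ℝ) : ℂ)⁻¹ * ((w - a) * (1 + starRingEnd ℂ a * w))‖ ≤ 1 := by
  have h0 : (0 : ℝ) < 1 + ‖a‖ ^ 2 := by positivity
  rw [norm_mul, norm_inv, Complex.norm_real, Real.norm_of_nonneg h0.le, norm_mul,
    inv_mul_le_iff₀ h0, mul_one]
  have h1 : ‖w - a‖ ^ 2 + ‖1 + starRingEnd ℂ a * w‖ ^ 2 = (1 + ‖w‖ ^ 2) * (1 + ‖a‖ ^ 2) := by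
    simp only [← Complex.normSq_eq_norm_sq, Complex.normSq_apply, Complex.sub_re, Complex.sub_im,
      Complex.add_re, Complex.add_im, Complex.mul_re, Complex.mul_im, Complex.conj_re,
      Complex.conj_im, Complex.one_re, Complex.one_im]
    ring
  have h2 : ‖w‖ ^ 2 ≤ 1 := by nlinarith [norm_nonneg w]
  nlinarith [sq_nonneg (‖w - a‖ - ‖1 + starRingEnd ℂ a * w‖), mul_nonneg (sub_nonneg.mpr h2) h0.le]

theorem vary_good (A : E →L[ℂ] E) (q : ℝ) (a : ℂ) (f : ℂ[X]) (hf : Good A q f) :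
    Good A q (vary a f) := by
  intro x y hx hy hxy
  have := vary_eval a _ (hf x y hx hy hxy)
  simpa [vary] using this

theorem vary_aeval (A : E →L[ℂ] E) (a : ℂ) (f : ℂ[X]) :
    aeval A (vary a f) = ((1 + ‖a‖ ^ 2 : ℝ) : ℂ)⁻¹ •
      ((aeval A f - a • 1) * (1 + starRingEnd ℂ a • aeval A f)) := by
  rw [vary, map_mul, aeval_C, map_mul, map_sub, map_add, map_mul, aeval_C, aeval_C, map_one,
    Algebra.algebraMap_eq_smul_one, Algebra.algebraMap_eq_smul_one,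
    Algebra.algebraMap_eq_smul_one, smul_mul_assoc, one_mul, smul_mul_assoc, one_mul]

theorem main [FiniteDimensional ℂ E] [Nontrivial E] (A : E →L[ℂ] E) (q k : ℝ)
    (hq0 : 0 < q) (hk : 0 < k) (hkq : k + k⁻¹ = 2 / q)
    (hdim : ∀ v : E, (∃ g : E, ‖g‖ = 1 ∧ inner ℂ v g = 0) ∨ q = 1)
    (f : ℂ[X]) (hf : Good A q f) : ‖aeval A f‖ ≤ max 1 (2 / k) := by
  have : CompleteSpace E := FiniteDimensional.complete ℂ E
  set K : Set (E →L[ℂ] E) :=
    closure ((fun f : ℂ[X] => (aeval A f : E →L[ℂ] E)) '' {f | Good A q f}) with hK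
  have hfK : aeval A f ∈ K := subset_closure ⟨f, hf, rfl⟩
  have hconj : ∀ y : E, ‖y‖ = 1 → ∀ T ∈ K, ‖Sop y k * T * Sop y k⁻¹‖ ≤ 2 := by
    intro y hy
    have hcl : IsClosed {T : E →L[ℂ] E | ‖Sop y k * T * Sop y k⁻¹‖ ≤ 2} :=
      isClosed_le (by fun_prop) continuous_const
    refine closure_minimal ?_ hcl
    rintro _ ⟨g, hg, rfl⟩
    exact conj_bound A q k hq0 hk hkq hdim y hy g hg
  have hvar : ∀ a : ℂ, ∀ T ∈ K, ((1 + ‖a‖ ^ 2 : ℝ) : ℂ)⁻¹ •
      ((T - a • 1) * (1 + starRingEnd ℂ a • T)) ∈ K := by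
    intro a T hT
    refine map_mem_closure (f := fun T : E →L[ℂ] E => ((1 + ‖a‖ ^ 2 : ℝ) : ℂ)⁻¹ •
      ((T - a • 1) * (1 + starRingEnd ℂ a • T))) (by fun_prop) hT ?_
    rintro _ ⟨g, hg, rfl⟩
    exact ⟨vary a g, vary_good A q a g hg, vary_aeval A a g⟩
  obtain ⟨e, he⟩ := exists_norm_eq E zero_le_one
  have hbd : ∀ T ∈ K, ‖T‖ ≤ ‖Sop e k⁻¹‖ * 2 * ‖Sop e k‖ := by
    intro T hT
    have h1 : Sop e k⁻¹ * Sop e k = 1 := by
      ext z; exact Sop_mul e he _ _ (inv_mul_cancel₀ hk.ne') z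
    have h2 : T = Sop e k⁻¹ * (Sop e k * T * Sop e k⁻¹) * Sop e k := by
      calc T = (Sop e k⁻¹ * Sop e k) * T * (Sop e k⁻¹ * Sop e k) := by rw [h1, one_mul, mul_one]
        _ = _ := by simp only [mul_assoc]
    calc ‖T‖ = ‖Sop e k⁻¹ * (Sop e k * T * Sop e k⁻¹) * Sop e k‖ := congrArg _ h2
      _ ≤ ‖Sop e k⁻¹ * (Sop e k * T * Sop e k⁻¹)‖ * ‖Sop e k‖ := norm_mul_le _ _
      _ ≤ (‖Sop e k⁻¹‖ * ‖Sop e k * T * Sop e k⁻¹‖) * ‖Sop e k‖ := by
          gcongr; exact norm_mul_le _ _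
      _ ≤ ‖Sop e k⁻¹‖ * 2 * ‖Sop e k‖ := by gcongr; exact hconj e he T hT
  have : ProperSpace E := FiniteDimensional.proper ℂ E
  have : ProperSpace (E →L[ℂ] E) := FiniteDimensional.proper ℂ _
  have hKc : IsCompact K := by
    apply Metric.isCompact_of_isClosed_isBounded isClosed_closure
    rw [isBounded_iff_forall_norm_le]
    exact ⟨_, hbd⟩
  have hP : IsCompact (K ×ˢ (Metric.sphere (0 : E) 1 ×ˢ Metric.sphere (0 : E) 1)) :=
    hKc.prod ((isCompact_sphere _ _).prod (isCompact_sphere _ _))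
  obtain ⟨⟨T, x, y⟩, ⟨hT, hx, hy⟩, hmax⟩ := hP.exists_isMaxOn
    (f := fun z : (E →L[ℂ] E) × (E × E) => (inner ℂ z.2.2 (z.1 z.2.1)).re)
    ⟨(aeval A f, e, e), hfK, by simpa using he, by simpa using he⟩
    (by
      apply Continuous.continuousOn
      have : Continuous fun z : (E →L[ℂ] E) × (E × E) => z.1 z.2.1 :=
        isBoundedBilinearMap_apply.continuous.comp (continuous_fst.prodMk
          (continuous_fst.comp continuous_snd))
      exact Complex.continuous_re.comp ((continuous_snd.comp continuous_snd).inner this))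
  have hx : ‖x‖ = 1 := by simpa using hx
  have hy : ‖y‖ = 1 := by simpa using hy
  set c := (inner ℂ y (T x)).re with hc
  have hmx : ∀ T' ∈ K, ∀ x' y' : E, ‖x'‖ = 1 → ‖y'‖ = 1 → (inner ℂ y' (T' x')).re ≤ c := by
    intro T' hT' x' y' hx' hy'
    exact hmax (a := (T', x', y')) ⟨hT', by simpa using hx', by simpa using hy'⟩
  have hc0 : 0 ≤ c := by
    have h1 := hmx T hT x y hx hy
    have h2 := hmx T hT x (-y) hx (by rw [norm_neg, hy])
    rw [inner_neg_left, Complex.neg_re] at h2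
    linarith
  have hnorm : ∀ T' ∈ K, ‖T'‖ ≤ c := by
    intro T' hT'
    apply ContinuousLinearMap.opNorm_le_bound _ hc0
    intro z
    by_cases hz : z = 0
    · simp [hz]
    by_cases hTz : T' z = 0
    · rw [hTz, norm_zero]; positivity
    have hz0 : ‖z‖ ≠ 0 := norm_ne_zero_iff.mpr hz
    have hTz0 : ‖T' z‖ ≠ 0 := norm_ne_zero_iff.mpr hTz
    have h := hmx T' hT' (((‖z‖⁻¹ : ℝ) : ℂ) • z) (((‖T' z‖⁻¹ : ℝ) : ℂ) • T' z)
      (by rw [norm_smul, Complex.norm_real, norm_inv, norm_norm, inv_mul_cancel₀ hz0])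
      (by rw [norm_smul, Complex.norm_real, norm_inv, norm_norm, inv_mul_cancel₀ hTz0])
    rw [map_smul, inner_smul_left, inner_smul_right, Complex.conj_ofReal, ← mul_assoc,
      ← Complex.ofReal_mul, Complex.re_ofReal_mul] at h
    have h2 : (inner ℂ (T' z) (T' z)).re = ‖T' z‖ ^ 2 := inner_self_eq_norm_sq (𝕜 := ℂ) _
    rw [h2] at h
    have h3 : ‖T' z‖⁻¹ * ‖z‖⁻¹ * ‖T' z‖ ^ 2 = ‖T' z‖ / ‖z‖ := by field_simp
    rw [h3, div_le_iff₀ (by positivity)] at h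
    exact h
  by_contra hcon
  push Not at hcon
  have hcf : max 1 (2 / k) < c := hcon.trans_le (hnorm _ hfK)
  have hc1 : 1 < c := (le_max_left _ _).trans_lt hcf
  have hc2 : 2 / k < c := (le_max_right _ _).trans_lt hcf
  have hTn : ‖T‖ ≤ c := hnorm T hT
  have hTx : T x = (c : ℂ) • y := by
    rw [← sub_eq_zero, ← norm_eq_zero, ← sq_eq_zero_iff]
    apply le_antisymm _ (sq_nonneg _)
    rw [@norm_sub_sq ℂ, inner_smul_right, norm_smul, Complex.norm_real, Real.norm_of_nonneg hc0,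
      hy, RCLike.re_eq_complex_re, Complex.re_ofReal_mul]
    have h1 : (inner ℂ (T x) y).re = c := by
      rw [hc]; exact inner_re_symm (𝕜 := ℂ) _ _
    rw [h1]
    have h2 : ‖T x‖ ≤ c := by
      refine (T.le_opNorm x).trans ?_
      rw [hx, mul_one]; exact hTn
    nlinarith [norm_nonneg (T x)]
  set T' := ContinuousLinearMap.adjoint T with hT'
  have hTy : T' y = (c : ℂ) • x := by
    rw [← sub_eq_zero, ← norm_eq_zero, ← sq_eq_zero_iff]
    apply le_antisymm _ (sq_nonneg _)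
    rw [@norm_sub_sq ℂ, inner_smul_right, norm_smul, Complex.norm_real, Real.norm_of_nonneg hc0,
      hx, RCLike.re_eq_complex_re, Complex.re_ofReal_mul]
    have h1 : (inner ℂ (T' y) x).re = c := by
      rw [hc, hT', ContinuousLinearMap.adjoint_inner_left]
    rw [h1]
    have h2 : ‖T' y‖ ≤ c := by
      refine (T'.le_opNorm y).trans ?_
      rw [hy, mul_one, hT', LinearIsometryEquiv.norm_map]; exact hTn
    nlinarith [norm_nonneg (T' y)]
  set b := inner ℂ y x with hb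
  have hyy : inner ℂ y y = (1 : ℂ) := by rw [inner_self_eq_norm_sq_to_K, hy]; simp
  have h1 : inner ℂ y (T x) = (c : ℂ) := by rw [hTx, inner_smul_right, hyy, mul_one]
  have h2 : inner ℂ y (T (T x)) = (c : ℂ) ^ 2 * starRingEnd ℂ b := by
    have : inner ℂ y (T (T x)) = inner ℂ (T' y) (T x) := by
      rw [hT', ContinuousLinearMap.adjoint_inner_left]
    rw [this, hTy, hTx, inner_smul_left, inner_smul_right, Complex.conj_ofReal, hb, inner_conj_symm]
    ring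
  have horth : b = 0 := by
    by_contra hb0
    have hbn : 0 < ‖b‖ ^ 2 := by positivity
    set t : ℝ := (c ^ 2 - 1) / (4 * c) with ht
    have hcc : 0 < c ^ 2 - 1 := by nlinarith
    have ht0 : 0 < t := by positivity
    have h3 := hmx _ (hvar ((t : ℂ) * starRingEnd ℂ b) T hT) x y hx hy
    have h4 : inner ℂ y ((((1 + ‖(t : ℂ) * starRingEnd ℂ b‖ ^ 2 : ℝ) : ℂ)⁻¹ •
        ((T - ((t : ℂ) * starRingEnd ℂ b) • 1) *
          (1 + starRingEnd ℂ ((t : ℂ) * starRingEnd ℂ b) • T))) x) =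
        (((1 + t ^ 2 * ‖b‖ ^ 2)⁻¹ * ((1 - t ^ 2 * ‖b‖ ^ 2) * c + (c ^ 2 - 1) * (t * ‖b‖ ^ 2)) : ℝ) :
          ℂ) := by
      have h5 : ‖(t : ℂ) * starRingEnd ℂ b‖ ^ 2 = t ^ 2 * ‖b‖ ^ 2 := by
        rw [norm_mul, Complex.norm_real, RCLike.norm_conj, mul_pow, Real.norm_eq_abs, sq_abs]
      rw [h5]
      have h6 : ((T - ((t : ℂ) * starRingEnd ℂ b) • 1) *
          (1 + starRingEnd ℂ ((t : ℂ) * starRingEnd ℂ b) • T)) x =
          T x + ((t : ℂ) * b) • T (T x) - ((t : ℂ) * starRingEnd ℂ b) • x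
            - ((t : ℂ) * starRingEnd ℂ b * ((t : ℂ) * b)) • T x := by
        rw [map_mul, Complex.conj_ofReal, Complex.conj_conj]
        show T (x + ((t : ℂ) * b) • T x) -
          ((t : ℂ) * starRingEnd ℂ b) • (x + ((t : ℂ) * b) • T x) = _
        rw [map_add, map_smul, smul_add, smul_smul]
        abel
      rw [_root_.smul_apply, h6, inner_smul_right, inner_sub_right, inner_sub_right,
        inner_add_right, inner_smul_right, inner_smul_right, inner_smul_right, h1, h2, ← hb]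
      have hbb : b * starRingEnd ℂ b = ((‖b‖ ^ 2 : ℝ) : ℂ) := by
        rw [Complex.mul_conj, Complex.normSq_eq_norm_sq]
      push_cast at hbb ⊢
      congr 1
      linear_combination ((t : ℂ) * (c : ℂ) ^ 2 - (t : ℂ) - (t : ℂ) ^ 2 * (c : ℂ)) * hbb
    rw [h4, Complex.ofReal_re, inv_mul_le_iff₀ (by positivity)] at h3
    have h7 : (c ^ 2 - 1) * (t * ‖b‖ ^ 2) ≤ 2 * c * t * (t * ‖b‖ ^ 2) := by nlinarith
    have h8 : 0 < t * ‖b‖ ^ 2 := by positivity
    have h9 : c ^ 2 - 1 ≤ 2 * c * t := le_of_mul_le_mul_right h7 h8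
    have h10 : 2 * c * t = (c ^ 2 - 1) / 2 := by rw [ht]; field_simp; ring
    linarith
  have h3 := (Sop y k * T * Sop y k⁻¹).le_opNorm x
  have h4 : (Sop y k * T * Sop y k⁻¹) x = ((k * c : ℝ) : ℂ) • y := by
    show Sop y k (T (Sop y k⁻¹ x)) = _
    have h5 : Sop y k⁻¹ x = x := by rw [Sop_apply, ← hb, horth, mul_zero, zero_smul, add_zero]
    rw [h5, hTx, map_smul, Sop_apply, hyy, mul_one]
    push_cast
    module
  rw [h4, norm_smul, Complex.norm_real, hx, hy, mul_one, mul_one,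
    Real.norm_of_nonneg (by positivity)] at h3
  have h5 := h3.trans (hconj y hy T hT)
  rw [div_lt_iff₀ hk] at hc2
  linarith

end Pool.Agent.N830.QCrouzeix
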