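import Pool.Agent.N830.QCrouzeix

set_option autoImplicit false

open Polynomial Set Topology

namespace Pool.Agent.N830.QCrouzeix

/-- The `q`-numerical range `W_q(A) = {<A x, y> : ‖x‖ = ‖y‖ = 1, <x, y> = q}` of an `n × n` complex
matrix, with `<x, y> = ∑ i, x i * conj (y i)`. -/
def qNumRange {n : ℕ} (A : Matrix (Fin n) (Fin n) ℂ) (q : ℂ) : Set ℂ :=
  {w | ∃ x y : EuclideanSpace ℂ (Fin n), ‖x‖ = 1 ∧ ‖y‖ = 1 ∧
    ∑ i, x i * starRingEnd ℂ (y i) = q ∧ w = ∑ i, (A.mulVec x) i * starRingEnd ℂ (y i)}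

/-- The scaled `q`-numerical range `Ω_q = W_q(A) / q`. -/
def Omega {n : ℕ} (A : Matrix (Fin n) (Fin n) ℂ) (q : ℂ) : Set ℂ :=
  {z | ∃ w ∈ qNumRange A q, z = w / q}

/-- `c(q) = max(1, 2|q| / (1 + √(1 - |q|²)))`. -/
noncomputable def cq (q : ℂ) : ℝ := max 1 (2 * ‖q‖ / (1 + Real.sqrt (1 - ‖q‖ ^ 2)))

theorem inner_eq_sum {n : ℕ} (x y : EuclideanSpace ℂ (Fin n)) :
    inner ℂ y x = ∑ i, x i * starRingEnd ℂ (y i) := by
  rw [PiLp.inner_apply]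
  simp

theorem mulVec_eq {n : ℕ} (A : Matrix (Fin n) (Fin n) ℂ) (x : EuclideanSpace ℂ (Fin n)) (i : Fin n) :
    (A.mulVec x) i = (Matrix.toEuclideanCLM (n := Fin n) (𝕜 := ℂ) A x) i := rfl

theorem mat_aeval {n : ℕ} (A : Matrix (Fin n) (Fin n) ℂ) (p : ℂ[X]) :
    Matrix.toEuclideanCLM (n := Fin n) (𝕜 := ℂ) (aeval A p) =
      aeval (Matrix.toEuclideanCLM (n := Fin n) (𝕜 := ℂ) A) p :=
  (Polynomial.aeval_algHom_apply
    ((Matrix.toEuclideanCLM (n := Fin n) (𝕜 := ℂ)).toAlgEquiv.toAlgHom) A p).symm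

/-- Membership in `Ω_q` for pairs with `<x, y> = |q|`. -/
theorem mem_Omega {n : ℕ} (A : Matrix (Fin n) (Fin n) ℂ) (q : ℂ) (hq : q ≠ 0)
    (x y : EuclideanSpace ℂ (Fin n)) (hx : ‖x‖ = 1) (hy : ‖y‖ = 1)
    (hxy : inner ℂ y x = (‖q‖ : ℂ)) :
    inner ℂ y (Matrix.toEuclideanCLM (n := Fin n) (𝕜 := ℂ) A x) / (‖q‖ : ℂ) ∈ Omega A q := by
  have hq0 : (‖q‖ : ℂ) ≠ 0 := by exact_mod_cast (norm_ne_zero_iff.mpr hq)
  set u : ℂ := q / ‖q‖ with hu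
  have hun : ‖u‖ = 1 := by
    rw [hu, norm_div, Complex.norm_real, norm_norm, div_self (norm_ne_zero_iff.mpr hq)]
  refine ⟨inner ℂ y (Matrix.toEuclideanCLM (n := Fin n) (𝕜 := ℂ) A (u • x)),
    ⟨u • x, y, ?_, hy, ?_, ?_⟩, ?_⟩
  · rw [norm_smul, hun, hx, mul_one]
  · rw [← inner_eq_sum, inner_smul_right, hxy, hu, div_mul_cancel₀ _ hq0]
  · simp only [mulVec_eq]
    rw [← inner_eq_sum]
  · rw [map_smul, inner_smul_right, hu]
    field_simp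

theorem Omega_norm {n : ℕ} (A : Matrix (Fin n) (Fin n) ℂ) (q : ℂ) :
    ∀ z ∈ Omega A q, ‖z‖ ≤ ‖Matrix.toEuclideanCLM (n := Fin n) (𝕜 := ℂ) A‖ / ‖q‖ := by
  rintro z ⟨w, ⟨x, y, hx, hy, -, hw⟩, rfl⟩
  rw [norm_div]
  gcongr
  simp only [mulVec_eq] at hw
  rw [← inner_eq_sum] at hw
  rw [hw]
  calc _ ≤ ‖y‖ * ‖Matrix.toEuclideanCLM (n := Fin n) (𝕜 := ℂ) A x‖ := norm_inner_le_norm _ _
    _ ≤ ‖y‖ * (‖Matrix.toEuclideanCLM (n := Fin n) (𝕜 := ℂ) A‖ * ‖x‖) := by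
        gcongr; exact ContinuousLinearMap.le_opNorm _ _
    _ = _ := by rw [hx, hy]; ring

theorem bdd {n : ℕ} (A : Matrix (Fin n) (Fin n) ℂ) (q : ℂ) (p : ℂ[X]) :
    BddAbove (Set.range fun z : Omega A q => ‖p.eval (z : ℂ)‖) := by
  have hc : IsCompact (Metric.closedBall (0 : ℂ)
      (‖Matrix.toEuclideanCLM (n := Fin n) (𝕜 := ℂ) A‖ / ‖q‖)) := isCompact_closedBall _ _
  obtain ⟨c, hcc⟩ := (hc.image (f := fun z => ‖p.eval z‖) (by fun_prop)).bddAbove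
  refine ⟨c, ?_⟩
  rintro _ ⟨z, rfl⟩
  apply hcc
  exact ⟨z, by rw [mem_closedBall_zero_iff]; exact Omega_norm A q z z.2, rfl⟩

theorem exists_orth {n : ℕ} (hn : 2 ≤ n) (v : EuclideanSpace ℂ (Fin n)) :
    ∃ g : EuclideanSpace ℂ (Fin n), ‖g‖ = 1 ∧ inner ℂ v g = 0 := by
  have h1 := (ℂ ∙ v).finrank_add_finrank_orthogonal
  have h2 : Module.finrank ℂ (ℂ ∙ v) ≤ 1 := by
    simpa using finrank_span_le_card (R := ℂ) ({v} : Set (EuclideanSpace ℂ (Fin n)))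
  have h3 : Module.finrank ℂ (EuclideanSpace ℂ (Fin n)) = n := by simp
  have h4 : 0 < Module.finrank ℂ (ℂ ∙ v)ᗮ := by omega
  have : Nontrivial (ℂ ∙ v)ᗮ := Module.nontrivial_of_finrank_pos h4
  obtain ⟨g, hg⟩ := exists_norm_eq (ℂ ∙ v)ᗮ zero_le_one
  refine ⟨g, hg, ?_⟩
  exact Submodule.mem_orthogonal_singleton_iff_inner_right.mp g.2

open scoped Matrix.Norms.L2Operator in
theorem mat_bound {n : ℕ} (A : Matrix (Fin n) (Fin n) ℂ) (q : ℂ) (hq0 : q ≠ 0) (hq1 : ‖q‖ ≤ 1)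
    (hn : 2 ≤ n ∨ ‖q‖ = 1) (p : ℂ[X]) :
    ‖aeval A p‖ ≤ cq q * ⨆ z : Omega A q, ‖p.eval (z : ℂ)‖ := by
  rcases Nat.eq_zero_or_pos n with h0 | hnp
  · subst h0
    have : aeval A p = 0 := Subsingleton.elim _ _
    rw [this, norm_zero]
    have h1 : (0 : ℝ) ≤ ⨆ z : Omega A q, ‖p.eval (z : ℂ)‖ := Real.iSup_nonneg fun _ => norm_nonneg _
    have h2 : (0 : ℝ) ≤ cq q := zero_le_one.trans (le_max_left _ _)
    positivity
  have : NeZero n := ⟨hnp.ne'⟩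
  have : Nontrivial (EuclideanSpace ℂ (Fin n)) := by infer_instance
  rw [← Matrix.l2_opNorm_toEuclideanCLM, mat_aeval]
  set B := Matrix.toEuclideanCLM (n := Fin n) (𝕜 := ℂ) A with hB
  have hqn : 0 < ‖q‖ := norm_pos_iff.mpr hq0
  set s := Real.sqrt (1 - ‖q‖ ^ 2) with hs
  have hs0 : 0 ≤ s := Real.sqrt_nonneg _
  have hs2 : s ^ 2 = 1 - ‖q‖ ^ 2 := Real.sq_sqrt (by nlinarith)
  set k := (1 + s) / ‖q‖ with hk
  have hk0 : 0 < k := by positivity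
  have hkq : k + k⁻¹ = 2 / ‖q‖ := by
    rw [hk]
    have h1 : 1 + s ≠ 0 := by positivity
    field_simp
    nlinarith
  have hck : cq q = max 1 (2 / k) := by
    rw [cq, ← hs, hk]
    congr 1
    field_simp
  rw [hck]
  set M := ⨆ z : Omega A q, ‖p.eval (z : ℂ)‖ with hM
  have hM0 : 0 ≤ M := Real.iSup_nonneg fun _ => norm_nonneg _
  have hmax0 : 0 < max 1 (2 / k) := lt_of_lt_of_le zero_lt_one (le_max_left _ _)
  refine le_of_forall_pos_le_add fun ε hε => ?_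
  set M' := M + ε / max 1 (2 / k) with hM'
  have hM'0 : 0 < M' := by positivity
  have hdim : ∀ v : EuclideanSpace ℂ (Fin n), (∃ g : EuclideanSpace ℂ (Fin n), ‖g‖ = 1 ∧
      inner ℂ v g = 0) ∨ ‖q‖ = 1 := by
    intro v
    rcases hn with hn | hn
    · exact Or.inl (exists_orth hn v)
    · exact Or.inr hn
  have hgood : Good B ‖q‖ (C ((M' : ℂ)⁻¹) * p) := by
    intro x y hx hy hxy
    have h1 := le_ciSup (bdd A q p) ⟨_, mem_Omega A q hq0 x y hx hy hxy⟩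
    rw [eval_mul, eval_C, norm_mul, norm_inv, Complex.norm_real, Real.norm_of_nonneg hM'0.le,
      inv_mul_le_iff₀ hM'0, mul_one]
    refine h1.trans ?_
    have : 0 < ε / max 1 (2 / k) := by positivity
    linarith
  have h := main B ‖q‖ k hqn hk0 hkq hdim _ hgood
  rw [map_mul, aeval_C, Algebra.algebraMap_eq_smul_one, smul_mul_assoc, one_mul, norm_smul,
    norm_inv, Complex.norm_real, Real.norm_of_nonneg hM'0.le, inv_mul_le_iff₀ hM'0] at h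
  calc ‖aeval B p‖ ≤ M' * max 1 (2 / k) := h
    _ = max 1 (2 / k) * M + ε := by rw [hM']; field_simp

end Pool.Agent.N830.QCrouzeix
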